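import Pool.Agent.T2H44.RD.Frame

/-!
# The space of real classes near an interior point
-/

namespace Pool.Agent.T2H44.RD

open Filter Topology Metric Pool.Agent.Y92.Gap Pool.Agent.Y92.RS Pool.Agent.Y92.GS
open Pool.Agent.T2H44.RC

variable {n : ℕ} {lev : Fin n → ℤ}

/-- a complement of `B ⊓ V` in `V` containing `A` -/
theorem exists_compl_ge {V : Type*} [AddCommGroup V] [Module ℝ V] {A B : Submodule ℝ V}
    (h : Disjoint A B) : ∃ C, A ≤ C ∧ IsCompl C B := by
  obtain ⟨d, hd⟩ := Submodule.exists_isCompl (A ⊔ B)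
  refine ⟨A ⊔ d, le_sup_left, ?_, ?_⟩
  · have h1 : Disjoint d (A ⊔ B) := hd.disjoint.symm
    have h2 : Disjoint (A ⊔ d) B := by
      rw [sup_comm]
      exact Disjoint.disjoint_sup_left_of_disjoint_sup_right h h1
    exact h2
  · rw [codisjoint_iff]
    have h3 := hd.sup_eq_top
    rw [sup_assoc, sup_comm d B, ← sup_assoc]
    exact h3

/-- a complement inside of a subspace -/
theorem exists_compl_in {V : Type*} [AddCommGroup V] [Module ℝ V] [FiniteDimensional ℝ V]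
    {A B T : Submodule ℝ V} (hA : A ≤ T) (hB : B ≤ T) (h : Disjoint A B) :
    ∃ C, A ≤ C ∧ C ≤ T ∧ C ⊔ B = T ∧ Disjoint C B ∧
      Module.finrank ℝ C + Module.finrank ℝ B = Module.finrank ℝ T := by
  obtain ⟨C, hAC, hC⟩ := exists_compl_ge h
  refine ⟨C ⊓ T, le_inf hAC hA, inf_le_right, ?_, hC.disjoint.mono_left inf_le_left, ?_⟩
  · rw [sup_comm, ← sup_inf_assoc_of_le _ hB, sup_comm, hC.sup_eq_top, top_inf_eq]
  · have h1 : Disjoint (C ⊓ T) B := hC.disjoint.mono_left inf_le_left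
    have h2 : (C ⊓ T) ⊔ B = T := by
      rw [sup_comm, ← sup_inf_assoc_of_le _ hB, sup_comm, hC.sup_eq_top, top_inf_eq]
    have h3 := Submodule.finrank_sup_add_finrank_inf_eq (C ⊓ T) B
    rw [h2, h1.eq_bot, finrank_bot, add_zero] at h3
    exact h3.symm

theorem gL_add (r : ℕ) (f : ℂ → Fin n → Fin n → ℂ) (v w : Fin n → ℂ) :
    gL lev r f (v + w) = gL lev r f v + gL lev r f w := by
  funext u l
  simp [gL]

theorem gL_smul (r : ℕ) (f : ℂ → Fin n → Fin n → ℂ) (t : ℂ) (v : Fin n → ℂ) :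
    gL lev r f (t • v) = t • gL lev r f v := by
  funext u l
  simp [gL]

theorem gL_zero (r : ℕ) (f : ℂ → Fin n → Fin n → ℂ) : gL lev r f 0 = 0 := by
  funext u l
  simp [gL]

/-- the coordinates modulo `F^{1-r}` of the real flat sections -/
noncomputable def gR (lev : Fin n → ℤ) (r : ℕ) (f : ℂ → Fin n → Fin n → ℂ) :
    (Fin n → ℝ) →ₗ[ℝ] (ℂ → LL lev r → ℂ) where
  toFun w := gL lev r f (rv w)
  map_add' v w := by rw [rv_add, gL_add]
  map_smul' t w := by
    rw [rv_smul, gL_smul]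
    funext u l
    simp

theorem mem_fil_iff_gL {r : ℕ} {f : ℂ → Fin n → Fin n → ℂ} {u : ℂ}
    (hi : LinearIndependent ℂ (f u)) {v : Fin n → ℂ} :
    v ∈ fil lev (f u) (1 - r) ↔ gL lev r f v u = 0 := by
  rw [mem_fil_iff hi]
  constructor
  · intro h
    funext l
    exact h l.1 (by have := l.2; omega)
  · intro h j hj
    exact congrFun h ⟨j, by omega⟩

theorem mem_fil_of_deep {r : ℕ} {f : ℂ → Fin n → Fin n → ℂ} {u : ℂ} (hi : LinearIndependent ℂ (f u))
    {v : Fin n → ℂ} (h : ∀ l, dp lev r l → gL lev r f v u l = 0) :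
    v ∈ fil lev (f u) (-(r : ℤ)) := by
  rw [mem_fil_iff hi]
  intro j hj
  exact h ⟨j, by omega⟩ (by show lev j < _; omega)

variable (c : DiscChart n lev)

/-- one step -/
theorem disc_step {r : ℕ} (hr : 1 ≤ r) (T WR : Submodule ℝ (Fin n → ℝ)) (hWT : WR ≤ T)
    (hWR : ∀ w ∈ WR, rv w ∈ c.F 0 (-(r : ℤ)) → w = 0)
    (hrank : Module.finrank ℝ T ≤
      Module.finrank ℝ WR + Module.finrank ℝ (T ⊓ c.flat (1 - r) : Submodule ℝ (Fin n → ℝ)) + r) :
    ∀ᶠ u in 𝓝[≠] (0 : ℂ), ∀ w ∈ T, rv w ∈ c.F u 0 → w ∈ c.flat (1 - r) := by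
  set Ω := ball (0 : ℂ) c.rad with hΩdef
  have hΩ : IsOpen Ω := isOpen_ball
  have h0Ω : (0 : ℂ) ∈ Ω := mem_ball_self c.rad_pos
  have hd := c.frame_holo
  have hi := c.frame_indep
  have ht := c.transversal
  have hdisj : Disjoint WR (T ⊓ c.flat (1 - r)) := by
    rw [Submodule.disjoint_def]
    intro w hw hwB
    exact hWR w hw (fil_anti _ _ (by omega) (hwB.2 0 h0Ω))
  obtain ⟨C, hWC, hCT, hCsup, hCd, hCr⟩ := exists_compl_in hWT inf_le_left hdisj
  have hfin : Module.finrank ℝ (Submodule.comap C.subtype WR) = Module.finrank ℝ WR :=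
    (Submodule.comapSubtypeEquivOfLe hWC).finrank_eq
  have hconn : IsPreconnected Ω := (convex_ball _ _).isPreconnected
  have hz := zero_estimate (V := C) (dp lev r) r hr ((gR lev r c.frame) ∘ₗ C.subtype) (u₀ := 0)
    (fun w => analyticAt_gL hΩ hd hi r _ h0Ω)
    (fun u l l' => Mx c.frame u l.1 l'.1)
    (fun l l' => (diff_Mx hΩ hd hi l.1 l'.1).analyticAt (hΩ.mem_nhds h0Ω))
    (fun w => by
      filter_upwards [hΩ.mem_nhds h0Ω] with u hu l hl
      exact ode_gL hΩ hd hi ht _ hu l hl)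
    (Submodule.comap C.subtype WR)
    (by rw [hfin]; omega)
    (fun h hh hdeep => by
      have h2 : rv (h : Fin n → ℝ) ∈ fil lev (c.frame 0) (-(r : ℤ)) :=
        mem_fil_of_deep (hi 0 h0Ω) hdeep
      exact Subtype.ext (hWR _ hh h2))
    (fun w hw => by
      have hwB : (w : Fin n → ℝ) ∈ c.flat (1 - r) := by
        have h1 : AnalyticOnNhd ℂ (gL lev r c.frame (rv (w : Fin n → ℝ))) Ω :=
          fun u hu => analyticAt_gL hΩ hd hi r _ hu
        have h2 := h1.eqOn_zero_of_preconnected_of_eventuallyEq_zero hconn h0Ω hw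
        exact fun u hu => (mem_fil_iff_gL (hi u hu)).2 (h2 hu)
      exact Subtype.ext (Submodule.disjoint_def.1 hCd _ w.2 ⟨hCT w.2, hwB⟩))
  have hΩ' : ∀ᶠ u in 𝓝[≠] (0 : ℂ), u ∈ Ω := nhdsWithin_le_nhds (hΩ.mem_nhds h0Ω)
  filter_upwards [hz, hΩ'] with u hu huΩ w hwT hw
  rw [← hCsup] at hwT
  obtain ⟨w₂, hw₂, w₁, hw₁, rfl⟩ := Submodule.mem_sup.1 hwT
  have h1 := order_gL hΩ hd hi ht huΩ hw hr
  have h2 : gL lev r c.frame (rv (w₂ + w₁)) =ᶠ[𝓝 u] gL lev r c.frame (rv w₂) := by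
    filter_upwards [hΩ.mem_nhds huΩ] with x hx
    rw [rv_add, gL_add, Pi.add_apply]
    have : gL lev r c.frame (rv w₁) x = 0 := (mem_fil_iff_gL (hi x hx)).1 (hw₁.2 x hx)
    rw [this, add_zero]
  rw [analyticOrderAt_congr h2] at h1
  have h4 : w₂ = 0 := congrArg Subtype.val (hu ⟨w₂, hw₂⟩ h1)
  rw [h4, zero_add]
  exact hw₁.2

theorem flat_anti {p q : ℤ} (h : p ≤ q) : c.flat q ≤ c.flat p :=
  fun w hw u hu => fil_anti _ _ h (hw u hu)

theorem disc_local {r : ℕ} (hr : 1 ≤ r)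
    (hR : Ranks n r (Module.finrank ℚ (c.W (-(2 * (r : ℤ) + 1))))
      fun q => Module.finrank ℝ (c.flat q)) :
    ∀ᶠ u in 𝓝[≠] (0 : ℂ), ∀ w, rv w ∈ c.F u 0 → w ∈ c.flat 0 := by
  have h0Ω : (0 : ℂ) ∈ ball (0 : ℂ) c.rad := mem_ball_self c.rad_pos
  have htop : ∀ᶠ u in 𝓝[≠] (0 : ℂ), ∀ w, rv w ∈ c.F u 0 → w ∈ c.flat (1 - r) := by
    have := disc_step c hr ⊤ (realSub (c.W (-(2 * (r : ℤ) + 1)))) le_top
      (fun w hw hF => by
        have h3 := real_zero (c.mhs 0 h0Ω) (rv_mem_cplx hw) hF (isR_rv w)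
        exact rv_inj (h3.trans rv_zero.symm))
      (by
        rw [top_inf_eq, finrank_top, Module.finrank_fin_fun]
        have h1 := hR.1
        simp only at h1
        have h3 := finrank_realSub (c.W (-(2 * (r : ℤ) + 1)))
        omega)
    filter_upwards [this] with u hu w hw using hu w Submodule.mem_top hw
  have hall : ∀ i : ℕ, i < r →
      ∀ᶠ u in 𝓝[≠] (0 : ℂ), ∀ w, rv w ∈ c.F u 0 → w ∈ c.flat (-((r - 1 - i : ℕ) : ℤ)) := by
    intro i
    induction i with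
    | zero =>
      intro _
      filter_upwards [htop] with u hu w hw
      have := hu w hw
      have e : (1 - (r : ℤ)) = -((r - 1 - 0 : ℕ) : ℤ) := by omega
      rwa [e] at this
    | succ i ih =>
      intro hi
      have h1 := ih (by omega)
      obtain ⟨j, hj, hj1, hj2⟩ : ∃ j, r - 1 - i = j ∧ 0 < j ∧ j < r := ⟨r - 1 - i, rfl, by omega,
        by omega⟩
      have h2 := disc_step c (r := j) hj1 (c.flat (-(j : ℤ))) ⊥ bot_le
        (fun w hw _ => by simpa using hw)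
        (by
          have h3 := hR.2 j hj1 hj2
          have h4 : c.flat (-(j : ℤ)) ⊓ c.flat (1 - j) = c.flat (1 - j) :=
            inf_eq_right.2 (flat_anti c (by omega))
          rw [h4, finrank_bot]
          simp only at h3
          omega)
      filter_upwards [h1, h2] with u hu1 hu2 w hw
      have h5 := hu1 w hw
      rw [hj] at h5
      have h6 := hu2 w h5 hw
      have e : (1 - (j : ℤ)) = -((r - 1 - (i + 1) : ℕ) : ℤ) := by omega
      rwa [e] at h6
  have := hall (r - 1) (by omega)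
  simpa using this

end Pool.Agent.T2H44.RD
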