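import Pool.Agent.T2H44.RD.FamCore
import Pool.Agent.T2H44.RD.Disc

/-!
# The space of real classes near a puncture
-/

namespace Pool.Agent.T2H44.RD

open Filter Topology Metric Pool.Agent.Y92.Gap Pool.Agent.Y92.RS Pool.Agent.Y92.GS
open Pool.Agent.T2H44.RC (cv zero_estimate ApproxStatement ModelStatement)
open Pool.Agent.T2H44.RC.P

variable {n : ℕ} {lev : Fin n → ℤ} (c : CuspChart n lev)

/-- the frame on the half plane -/
noncomputable def fz (z : ℂ) (j : Fin n) : Fin n → ℂ := expN c.N z (c.frame (qexp z) j)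

/-- the half plane -/
def Om : Set ℂ := {z | qexp z ∈ ball (0 : ℂ) c.rad}

theorem isOpen_Om : IsOpen (Om c) := isOpen_ball.preimage qexp_cont

theorem frame_diffAt {q : ℂ} (hq : q ∈ ball (0 : ℂ) c.rad) (j : Fin n) :
    DifferentiableAt ℂ (fun u => c.frame u j) q :=
  (c.frame_holo j).differentiableAt (isOpen_ball.mem_nhds hq)

theorem hasDerivAt_fz {z : ℂ} (hz : z ∈ Om c) (j : Fin n) :
    HasDerivAt (fun z => fz c z j) (ex (op c.N) z
      ((2 * Real.pi * Complex.I * qexp z) • deriv (fun u => c.frame u j) (qexp z)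
        + op c.N (c.frame (qexp z) j))) z := by
  have h3 := hasDerivAt_ex_comp (op c.N) (frame_diffAt c hz j).hasDerivAt
  have h4 : (fun z => fz c z j) = fun z => ex (op c.N) z (c.frame (qq z) j) :=
    funext fun z => expN_eq c.nilpotent z _
  rw [h4]
  exact h3

theorem fz_diff (j : Fin n) : DifferentiableOn ℂ (fun z => fz c z j) (Om c) :=
  fun z hz => (hasDerivAt_fz c hz j).differentiableAt.differentiableWithinAt

theorem fz_indep : ∀ z ∈ Om c, LinearIndependent ℂ (fz c z) :=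
  fun z hz => indep_exp c.nilpotent z (c.frame_indep _ hz)

theorem fz_trans : ∀ z ∈ Om c, ∀ j, deriv (fun z => fz c z j) z ∈ fil lev (fz c z) (lev j - 1) :=
  fun z hz j => c.transversal z hz j

/-- the real operator -/
noncomputable def NR : (Fin n → ℝ) →ₗ[ℝ] (Fin n → ℝ) := (c.N.map (fun t : ℚ => (t : ℝ))).mulVecLin

theorem op_eq : op c.N = cxm (NR c) := by
  apply ext_real
  intro x
  rw [cxm_cv]
  funext i
  rw [op_apply]
  simp [NR, cv, Matrix.mulVec, dotProduct]

theorem op_pow_rv (a : ℕ) (w : Fin n → ℝ) : ((op c.N) ^ a) (rv w) = rv (((NR c) ^ a) w) := by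
  rw [op_eq]
  exact cxm_pow_cv _ _ _

theorem NR_nilp : (NR c) ^ n = 0 := by
  ext1 x
  apply LinearMap.ext
  intro y
  apply rv_inj
  show rv (((NR c) ^ n) ((LinearMap.single ℝ (fun _ => ℝ) x) y)) = _
  rw [← op_pow_rv, op_nilpotent c.nilpotent]
  simp [rv_zero]

theorem gL_fz {r : ℕ} {z : ℂ} (hz : z ∈ Om c) (v : Fin n → ℂ) :
    gL lev r (fz c) v z = gL lev r c.frame (ex (op c.N) (-z) v) (qexp z) := by
  funext l
  show mkInv (fun j => expN c.N z (c.frame (qexp z) j)) v l.1 = _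
  rw [mkInv_exp c.nilpotent z (c.frame_indep _ hz)]
  rfl

theorem gL_ex (r : ℕ) (w : Fin n → ℝ) (z q : ℂ) :
    gL lev r c.frame (ex (op c.N) (-z) (rv w)) q = ∑ a ∈ Finset.range n,
      ((a.factorial : ℂ)⁻¹ * (-z) ^ a) • gR lev r c.frame (((NR c) ^ a) w) q := by
  set T : (Fin n → ℂ) →L[ℂ] (LL lev r → ℂ) :=
    ContinuousLinearMap.pi fun l => (ContinuousLinearMap.proj l.1).comp (mkInv (c.frame q)) with hT
  have hTa : ∀ v, T v = gL lev r c.frame v q := fun v => rfl
  rw [← hTa, ex_eq_sum (op_nilpotent c.nilpotent), _root_.sum_apply, map_sum]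
  refine Finset.sum_congr rfl fun a _ => ?_
  rw [_root_.smul_apply, map_smul, op_pow_rv]
  rfl

/-- the matrix of the system in terms of `q` -/
noncomputable def Mq (q : ℂ) (j k : Fin n) : ℂ :=
  -(mkInv (c.frame q) (op c.N (c.frame q k)
    + (2 * Real.pi * Complex.I * q) • deriv (fun u => c.frame u k) q)) j

theorem Mx_fz {z : ℂ} (hz : z ∈ Om c) (j k : Fin n) : Mx (fz c) z j k = Mq c (qexp z) j k := by
  unfold Mx Mq
  rw [(hasDerivAt_fz c hz k).deriv]
  have h1 : mkInv (fz c z) = mkInv (fun j => expN c.N z (c.frame (qexp z) j)) := rfl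
  rw [h1, mkInv_exp c.nilpotent z (c.frame_indep _ hz), ex_neg_apply, add_comm]

theorem Mq_cont (j k : Fin n) : ContinuousAt (fun q => Mq c q j k) 0 := by
  have h0r : (0 : ℂ) ∈ ball (0 : ℂ) c.rad := mem_ball_self c.rad_pos
  have e1 : ContinuousAt (fun q => mkInv (c.frame q)) 0 :=
    (differentiableAt_mkInv (frame_diffAt c h0r) (c.frame_indep 0 h0r)).continuousAt
  have e2 : ContinuousAt (fun q => op c.N (c.frame q k)) 0 :=
    (op c.N).continuous.continuousAt.comp (frame_diffAt c h0r k).continuousAt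
  have e3 : ContinuousAt (fun q => deriv (fun u => c.frame u k) q) 0 :=
    (((c.frame_holo k).analyticAt (isOpen_ball.mem_nhds h0r)).deriv).continuousAt
  have e4 : ContinuousAt (fun q : ℂ => 2 * Real.pi * Complex.I * q) 0 :=
    (continuous_const.mul continuous_id).continuousAt
  have e5 := tendsto_clm_apply e1.tendsto (e2.add (e4.smul e3)).tendsto
  exact ((continuous_apply j).continuousAt.tendsto.comp e5).neg

theorem an_gR (r : ℕ) (w : Fin n → ℝ) {q : ℂ} (hq : q ∈ ball (0 : ℂ) c.rad) :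
    AnalyticAt ℂ (gR lev r c.frame w) q :=
  analyticAt_gL isOpen_ball c.frame_holo c.frame_indep r _ hq

/-- a polynomial with vector coefficients and infinitely many zeros vanishes -/
theorem poly_zero' {L : Type} {K : ℕ} (c : ℕ → L → ℂ) {s : Set ℂ} (hs : s.Infinite)
    (h : ∀ z ∈ s, ∑ i ∈ Finset.range K, z ^ i • c i = 0) : ∀ i < K, c i = 0 := by
  intro i hi
  ext l
  set p : Polynomial ℂ := ∑ i ∈ Finset.range K, Polynomial.C (c i l) * Polynomial.X ^ i with hp
  have h0 : p = 0 := by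
    refine Polynomial.eq_zero_of_infinite_isRoot p (hs.mono fun z hz => ?_)
    have h1 := congrFun (h z hz) l
    simp only [Set.mem_ofPred_eq, Polynomial.IsRoot.def, hp, Polynomial.eval_finsetSum,
      Polynomial.eval_mul, Polynomial.eval_C, Polynomial.eval_pow, Polynomial.eval_X]
    rw [Finset.sum_apply] at h1
    simp only [Pi.smul_apply, smul_eq_mul, Pi.zero_apply] at h1
    rw [← h1]
    exact Finset.sum_congr rfl fun i _ => mul_comm _ _
  have h2 : p.coeff i = c i l := by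
    rw [hp, Polynomial.finsetSum_coeff]
    simp only [Polynomial.coeff_C_mul, Polynomial.coeff_X_pow]
    rw [Finset.sum_eq_single i]
    · simp
    · intro b _ hb
      simp [Ne.symm hb]
    · intro h
      exact absurd (Finset.mem_range.2 hi) h
  rw [← h2, h0]
  simp

theorem qexp_add_nat' (z : ℂ) (n : ℕ) : qexp (z + n) = qexp z := by
  induction n with
  | zero => simp
  | succ n ih =>
    have h := qq_add_one (z + n)
    change qexp (z + n + 1) = qexp (z + n) at h
    push_cast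
    rw [← add_assoc, h, ih]

/-- the flat real sections of `F^{1-r}` in terms of the functions of `q` -/
theorem mem_flat_iff (r : ℕ) (w : Fin n → ℝ) : w ∈ c.flat (1 - r) ↔
    ∀ a : ℕ, ∀ q ∈ ball (0 : ℂ) c.rad, gR lev r c.frame (((NR c) ^ a) w) q = 0 := by
  have hfl : w ∈ c.flat (1 - r) ↔ ∀ z ∈ Om c, gL lev r (fz c) (rv w) z = 0 := by
    constructor
    · intro h z hz
      exact (mem_fil_iff_gL (fz_indep c z hz)).1 (h z hz)
    · intro h z hz
      exact (mem_fil_iff_gL (fz_indep c z hz)).2 (h z hz)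
  rw [hfl]
  constructor
  · intro h
    have hne : ∀ q ∈ ball (0 : ℂ) c.rad, q ≠ 0 → ∀ a : ℕ,
        gR lev r c.frame (((NR c) ^ a) w) q = 0 := by
      intro q hq hq0 a
      by_cases ha : a < n
      swap
      · have h1 : (NR c) ^ a = 0 := pow_eq_zero_of_le (not_lt.1 ha) (NR_nilp c)
        rw [h1]
        simp only [LinearMap.zero_apply, map_zero]
        rfl
      obtain ⟨z, rfl⟩ := exists_qq hq0
      have hz : z ∈ Om c := hq
      have h2 := poly_zero' (K := n)
        (fun a => (a.factorial : ℂ)⁻¹ • gR lev r c.frame (((NR c) ^ a) w) (qexp z))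
        (s := Set.range fun k : ℕ => -(z + k)) (Set.infinite_range_of_injective fun k k' hk => by
          simpa using hk) (by
          rintro _ ⟨k, rfl⟩
          have h3 : qexp (z + k) = qexp z := qexp_add_nat' z k
          have hz' : z + k ∈ Om c := by
            show qexp (z + k) ∈ ball (0 : ℂ) c.rad
            rw [h3]; exact hq
          have h4 := h (z + k) hz'
          rw [gL_fz c hz', gL_ex, h3] at h4
          refine Eq.trans (Finset.sum_congr rfl fun a _ => ?_) h4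
          rw [smul_smul]
          congr 1
          ring) a ha
      have h5 : (a.factorial : ℂ)⁻¹ ≠ 0 := inv_ne_zero (Nat.cast_ne_zero.2 a.factorial_ne_zero)
      exact (smul_eq_zero.1 h2).resolve_left h5
    intro a q hq
    by_cases hq0 : q = 0
    swap
    · exact hne q hq hq0 a
    subst hq0
    have h1 : ContinuousAt (gR lev r c.frame (((NR c) ^ a) w)) 0 := (an_gR c r _ hq).continuousAt
    have h2 : gR lev r c.frame (((NR c) ^ a) w) =ᶠ[𝓝[≠] 0] fun _ => 0 := by
      have h3 : ∀ᶠ q in 𝓝[≠] (0 : ℂ), q ∈ ball (0 : ℂ) c.rad :=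
        nhdsWithin_le_nhds (isOpen_ball.mem_nhds hq)
      filter_upwards [h3, self_mem_nhdsWithin] with q hq hq0
      exact hne q hq hq0 a
    have h3 := h1.tendsto.mono_left (nhdsWithin_le_nhds (s := {0}ᶜ))
    exact tendsto_nhds_unique (h3.congr' h2) tendsto_const_nhds
  · intro h z hz
    rw [gL_fz c hz, gL_ex]
    refine Finset.sum_eq_zero fun a _ => ?_
    rw [h a _ hz, smul_zero]

theorem NR_flat {r : ℕ} {w : Fin n → ℝ} (h : w ∈ c.flat (1 - r)) : NR c w ∈ c.flat (1 - r) := by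
  rw [mem_flat_iff] at h ⊢
  intro a
  have := h (a + 1)
  rwa [pow_succ] at this

/-- the family of the flat sections in a stable subspace -/
noncomputable def fam (r : ℕ) (T : Submodule ℝ (Fin n → ℝ)) (hT : ∀ w ∈ T, NR c w ∈ T) :
    Fam T (LL lev r) where
  N := (NR c).restrict hT
  K := n
  nilp := by
    rw [Module.End.pow_restrict]
    apply LinearMap.ext
    intro w
    apply Subtype.ext
    rw [LinearMap.restrict_apply]
    simp [NR_nilp]
  rad := c.rad
  rad_pos := c.rad_pos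
  A := (gR lev r c.frame) ∘ₗ T.subtype
  an := fun w q hq => an_gR c r _ hq

variable {r : ℕ} {T : Submodule ℝ (Fin n → ℝ)} (hT : ∀ w ∈ T, NR c w ∈ T)

theorem fam_pow (a : ℕ) (w : T) :
    ((((fam c r T hT).N ^ a) w : T) : Fin n → ℝ) = ((NR c) ^ a) (w : Fin n → ℝ) := by
  show (((((NR c).restrict hT) ^ a) w : T) : Fin n → ℝ) = _
  rw [Module.End.pow_restrict, LinearMap.restrict_apply]

theorem fam_gq (w : T) (z q : ℂ) : (fam c r T hT).gq w z q
    = gL lev r c.frame (ex (op c.N) (-z) (rv (w : Fin n → ℝ))) q := by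
  rw [gL_ex]
  unfold Fam.gq
  refine Finset.sum_congr rfl fun a _ => ?_
  congr 1
  show gR lev r c.frame ((((fam c r T hT).N ^ a) w : T) : Fin n → ℝ) q = _
  rw [fam_pow]

theorem fam_g (w : T) {z : ℂ} (hz : z ∈ Om c) :
    (fam c r T hT).g w z = gL lev r (fz c) (rv (w : Fin n → ℝ)) z := by
  rw [gL_fz c hz]
  exact fam_gq c hT w z _

theorem fam_Ui : (fam c r T hT).Ui = Submodule.comap T.subtype (c.flat (1 - r)) := by
  ext w
  rw [Submodule.mem_comap]
  show (∀ a : ℕ, ∀ q ∈ ball (0 : ℂ) c.rad,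
    gR lev r c.frame ((((fam c r T hT).N ^ a) w : T) : Fin n → ℝ) q = 0) ↔ _
  simp only [fam_pow]
  exact (mem_flat_iff c r _).symm

/-- one step -/
theorem cusp_step (happ : ApproxStatement) (hmod : ModelStatement) (hr : 1 ≤ r)
    (hT : ∀ w ∈ T, NR c w ∈ T) (WR : Submodule ℝ (Fin n → ℝ)) (hWT : WR ≤ T) (c₀ : ℝ)
    (hWR : ∀ z : ℂ, c₀ < z.im → ∀ w ∈ WR,
      rv w ∈ fil lev (fun j => expN c.N z (c.frame 0 j)) (-(r : ℤ)) → w = 0)
    (hrank : Module.finrank ℝ T ≤
      Module.finrank ℝ WR + Module.finrank ℝ (T ⊓ c.flat (1 - r) : Submodule ℝ (Fin n → ℝ)) + r) :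
    ∃ y₁ : ℝ, ∀ z : ℂ, y₁ < z.im → qexp z ∈ ball (0 : ℂ) c.rad → ∀ w ∈ T, rv w ∈ c.F z 0 →
      w ∈ c.flat (1 - r) := by
  have h0r : (0 : ℂ) ∈ ball (0 : ℂ) c.rad := mem_ball_self c.rad_pos
  have hfin : Module.finrank ℝ (Submodule.comap T.subtype WR) = Module.finrank ℝ WR :=
    (Submodule.comapSubtypeEquivOfLe hWT).finrank_eq
  have hfin2 : Module.finrank ℝ (Submodule.comap T.subtype (c.flat (1 - r)))
      = Module.finrank ℝ (T ⊓ c.flat (1 - r) : Submodule ℝ (Fin n → ℝ)) := by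
    have h1 : Submodule.comap T.subtype (c.flat (1 - r))
        = Submodule.comap T.subtype (T ⊓ c.flat (1 - r)) := by
      ext w
      simp
    rw [h1]
    exact (Submodule.comapSubtypeEquivOfLe inf_le_left).finrank_eq
  obtain ⟨y₁, hy₁⟩ := (fam c r T hT).core happ hmod hr (deep := dp lev r)
    (Mq := fun q l l' => Mq c q l.1 l'.1) (fun l l' => Mq_cont c l.1 l'.1)
    (fun z hz w l hl => by
      have hzO : z ∈ Om c := hz
      have h1 := ode_gL (isOpen_Om c) (fz_diff c) (fz_indep c) (fz_trans c)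
        (rv (w : Fin n → ℝ)) hzO l hl
      have h2 : (fun x => (fam c r T hT).g w x l) =ᶠ[𝓝 z]
          fun x => gL lev r (fz c) (rv (w : Fin n → ℝ)) x l := by
        filter_upwards [(isOpen_Om c).mem_nhds hzO] with x hx
        rw [fam_g c hT w hx]
      rw [h2.deriv_eq, h1, fam_g c hT w hzO]
      refine Finset.sum_congr rfl fun l' _ => ?_
      rw [Mx_fz c hzO])
    (Submodule.comap T.subtype WR)
    (by
      rw [hfin, fam_Ui, hfin2]
      exact hrank)
    c₀
    (fun z hz w hw hl => by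
      have h1 : rv (w : Fin n → ℝ) ∈ fil lev (fun j => expN c.N z (c.frame 0 j)) (-(r : ℤ)) := by
        refine mem_fil_of_deep (f := fun _ j => expN c.N z (c.frame 0 j)) (u := 0)
          (indep_exp c.nilpotent z (c.frame_indep 0 h0r)) fun l hdl => ?_
        have h2 := hl l hdl
        rw [fam_gq] at h2
        show mkInv (fun j => expN c.N z (c.frame 0 j)) (rv (w : Fin n → ℝ)) l.1 = 0
        rw [mkInv_exp c.nilpotent z (c.frame_indep 0 h0r)]
        exact h2
      exact Subtype.ext (hWR z hz _ hw h1))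
  refine ⟨y₁, fun z hz hzO w hwT hw => ?_⟩
  have h1 := order_gL (isOpen_Om c) (fz_diff c) (fz_indep c) (fz_trans c)
    (show z ∈ Om c from hzO) hw hr
  have h2 : gL lev r (fz c) (rv w) =ᶠ[𝓝 z] (fam c r T hT).g ⟨w, hwT⟩ := by
    filter_upwards [(isOpen_Om c).mem_nhds (show z ∈ Om c from hzO)] with x hx
    rw [fam_g c hT _ hx]
  rw [analyticOrderAt_congr h2] at h1
  have h3 := hy₁ z hz hzO ⟨w, hwT⟩ h1
  rw [fam_Ui] at h3
  exact h3

theorem cusp_flat_anti {p q : ℤ} (h : p ≤ q) : c.flat q ≤ c.flat p :=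
  fun w hw u hu => fil_anti _ _ h (hw u hu)

theorem cusp_local (happ : ApproxStatement) (hmod : ModelStatement) (hr : 1 ≤ r)
    (hR : Ranks n r (Module.finrank ℚ (c.W (-(2 * (r : ℤ) + 1))))
      fun q => Module.finrank ℝ (c.flat q)) :
    ∃ y₁ : ℝ, ∀ z : ℂ, y₁ < z.im → qexp z ∈ ball (0 : ℂ) c.rad → ∀ w, rv w ∈ c.F z 0 →
      w ∈ c.flat 0 := by
  obtain ⟨c₀, hc₀⟩ := c.limit
  have htop : ∃ y₁ : ℝ, ∀ z : ℂ, y₁ < z.im → qexp z ∈ ball (0 : ℂ) c.rad → ∀ w,
      rv w ∈ c.F z 0 → w ∈ c.flat (1 - r) := by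
    obtain ⟨y₁, hy₁⟩ := cusp_step c happ hmod hr (T := ⊤) (fun w _ => Submodule.mem_top)
      (realSub (c.W (-(2 * (r : ℤ) + 1)))) le_top c₀
      (fun z hz w hw hF => by
        have h3 := real_zero (hc₀ z hz) (rv_mem_cplx hw) hF (isR_rv w)
        exact rv_inj (h3.trans rv_zero.symm))
      (by
        rw [top_inf_eq, finrank_top, Module.finrank_fin_fun]
        have h1 := hR.1
        simp only at h1
        have h3 := finrank_realSub (c.W (-(2 * (r : ℤ) + 1)))
        omega)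
    exact ⟨y₁, fun z hz hzO w hw => hy₁ z hz hzO w Submodule.mem_top hw⟩
  have hall : ∀ i : ℕ, i < r → ∃ y₁ : ℝ, ∀ z : ℂ, y₁ < z.im → qexp z ∈ ball (0 : ℂ) c.rad → ∀ w,
      rv w ∈ c.F z 0 → w ∈ c.flat (-((r - 1 - i : ℕ) : ℤ)) := by
    intro i
    induction i with
    | zero =>
      intro _
      obtain ⟨y₁, hy₁⟩ := htop
      refine ⟨y₁, fun z hz hzO w hw => ?_⟩
      have := hy₁ z hz hzO w hw
      have e : (1 - (r : ℤ)) = -((r - 1 - 0 : ℕ) : ℤ) := by omega
      rwa [e] at this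
    | succ i ih =>
      intro hi
      obtain ⟨y₁, hy₁⟩ := ih (by omega)
      obtain ⟨j, hj, hj1, hj2⟩ : ∃ j, r - 1 - i = j ∧ 0 < j ∧ j < r := ⟨r - 1 - i, rfl, by omega,
        by omega⟩
      have hstab : ∀ w ∈ c.flat (-(j : ℤ)), NR c w ∈ c.flat (-(j : ℤ)) := by
        intro w hw
        have e : (-(j : ℤ)) = 1 - ((j + 1 : ℕ) : ℤ) := by push_cast; ring
        rw [e] at hw ⊢
        exact NR_flat c hw
      obtain ⟨y₂, hy₂⟩ := cusp_step c happ hmod (r := j) hj1 (T := c.flat (-(j : ℤ))) hstab ⊥ bot_le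
        0 (fun z _ w hw _ => by simpa using hw)
        (by
          have h3 := hR.2 j hj1 hj2
          have h4 : c.flat (-(j : ℤ)) ⊓ c.flat (1 - j) = c.flat (1 - j) :=
            inf_eq_right.2 (cusp_flat_anti c (by omega))
          rw [h4, finrank_bot]
          simp only at h3
          omega)
      refine ⟨max y₁ y₂, fun z hz hzO w hw => ?_⟩
      have h5 := hy₁ z (lt_of_le_of_lt (le_max_left _ _) hz) hzO w hw
      rw [hj] at h5
      have h6 := hy₂ z (lt_of_le_of_lt (le_max_right _ _) hz) hzO w h5 hw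
      have e : (1 - (j : ℤ)) = -((r - 1 - (i + 1) : ℕ) : ℤ) := by omega
      rwa [e] at h6
  have := hall (r - 1) (by omega)
  simpa using this

end Pool.Agent.T2H44.RD
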