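import Pool.Agent.Y92.GS.Defs

/-!
# Real classes of variations of mixed Hodge structures with a gap in the weights: definitions

Let `X` be a compact Riemann surface, `D ⊂ X` the set of punctures and `V` an admissible variation of
mixed Hodge structure of rank `n` over `X ∖ D`, with arbitrary weights. We describe `V` by its local period
data, as in `Pool.Agent.Y92.GS.Defs`: in a rational basis the weight filtration is constant and the Hodge
filtration is given by a holomorphic frame of `ℂⁿ` adapted to it; the `j`-th vector has level `lev j`, and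
`F^p` is spanned by the vectors of level at least `p`.
-/

namespace Pool.Agent.T2H44.RD

open Metric Pool.Agent.Y92.Gap

/-- the vector with the real coordinates `w` -/
def rv {n : ℕ} (w : Fin n → ℝ) : Fin n → ℂ := fun i => ((w i : ℝ) : ℂ)

/-- Period data of `V` over a small disc in the base. -/
structure DiscChart (n : ℕ) (lev : Fin n → ℤ) where
  /-- the radius of the disc -/
  rad : ℝ
  rad_pos : 0 < rad
  /-- the weight filtration -/
  W : ℤ → Submodule ℚ (Fin n → ℚ)
  /-- the frame adapted to the Hodge filtration -/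
  frame : ℂ → Fin n → Fin n → ℂ
  frame_holo : ∀ j, DifferentiableOn ℂ (fun u => frame u j) (ball 0 rad)
  frame_indep : ∀ u ∈ ball (0 : ℂ) rad, LinearIndependent ℂ (frame u)
  mhs : ∀ u ∈ ball (0 : ℂ) rad, IsMHS W (fil lev (frame u))
  /-- Griffiths transversality -/
  transversal : ∀ u ∈ ball (0 : ℂ) rad, ∀ j,
    deriv (fun u => frame u j) u ∈ fil lev (frame u) (lev j - 1)

/-- Period data of `V` near a puncture.  The local parameter of the base is `s ^ e` with
`s = exp (2 π i z)`, `z` in a half plane, where `e` is chosen such that the monodromy around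
`s = 0` is unipotent.  The Hodge filtration is `exp (z N)` applied to a filtration with a frame
holomorphic in `s` including `s = 0`; its value at `s = 0` is the limit filtration, and the
nilpotent orbit `exp (z N) F_lim` is a mixed Hodge structure for `Im z` large (these properties are part of
the admissibility of `V`). -/
structure CuspChart (n : ℕ) (lev : Fin n → ℤ) where
  /-- ramification index -/
  e : ℕ
  e_pos : 0 < e
  /-- the radius of the disc of the variable `s` -/
  rad : ℝ
  rad_pos : 0 < rad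
  /-- the weight filtration -/
  W : ℤ → Submodule ℚ (Fin n → ℚ)
  /-- logarithm of the monodromy -/
  N : Matrix (Fin n) (Fin n) ℚ
  nilpotent : N ^ n = 0
  /-- the frame -/
  frame : ℂ → Fin n → Fin n → ℂ
  frame_holo : ∀ j, DifferentiableOn ℂ (fun s => frame s j) (ball 0 rad)
  frame_indep : ∀ s ∈ ball (0 : ℂ) rad, LinearIndependent ℂ (frame s)
  mhs : ∀ z, qexp z ∈ ball (0 : ℂ) rad → IsMHS W (fil lev fun j => expN N z (frame (qexp z) j))
  limit : ∃ c : ℝ, ∀ z : ℂ, c < z.im → IsMHS W (fil lev fun j => expN N z (frame 0 j))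
  /-- Griffiths transversality -/
  transversal : ∀ z, qexp z ∈ ball (0 : ℂ) rad → ∀ j,
    deriv (fun z => expN N z (frame (qexp z) j)) z ∈
      fil lev (fun j => expN N z (frame (qexp z) j)) (lev j - 1)

variable {n : ℕ} {lev : Fin n → ℤ}

/-- the Hodge filtration at the point `u` of the disc -/
def DiscChart.F (c : DiscChart n lev) (u : ℂ) : ℤ → Submodule ℂ (Fin n → ℂ) :=
  fil lev (c.frame u)

/-- the Hodge filtration at the point `z` of the half plane -/
noncomputable def CuspChart.F (c : CuspChart n lev) (z : ℂ) : ℤ → Submodule ℂ (Fin n → ℂ) :=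
  fil lev fun j => expN c.N z (c.frame (qexp z) j)

/-- the real vectors which lie in all of the subspaces `Φ u`, `u ∈ Ω` -/
def common {n : ℕ} (Ω : Set ℂ) (Φ : ℂ → Submodule ℂ (Fin n → ℂ)) : Submodule ℝ (Fin n → ℝ) where
  carrier := {w | ∀ u ∈ Ω, rv w ∈ Φ u}
  zero_mem' := fun u _ => by
    have : rv (0 : Fin n → ℝ) = 0 := by ext i; simp [rv]
    rw [this]; exact (Φ u).zero_mem
  add_mem' := fun {v w} hv hw u hu => by
    have : rv (v + w) = rv v + rv w := by ext i; simp [rv]
    rw [this]; exact (Φ u).add_mem (hv u hu) (hw u hu)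
  smul_mem' := fun t v hv u hu => by
    have : rv (t • v) = (t : ℂ) • rv v := by ext i; simp [rv]
    rw [this]; exact (Φ u).smul_mem _ (hv u hu)

/-- the flat real sections of `F^p` over the disc -/
def DiscChart.flat (c : DiscChart n lev) (p : ℤ) : Submodule ℝ (Fin n → ℝ) :=
  common (ball 0 c.rad) fun u => c.F u p

/-- the flat real sections of `F^p` over the half plane -/
noncomputable def CuspChart.flat (c : CuspChart n lev) (p : ℤ) : Submodule ℝ (Fin n → ℝ) :=
  common {z | qexp z ∈ ball (0 : ℂ) c.rad} fun z => c.F z p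

/-- `(W, F)` is the value at `x` of one branch of the period map. -/
def HasPeriod {X : Type*} [TopologicalSpace X] [ChartedSpace ℂ X]
    (D : Set X) (disc : X → DiscChart n lev) (cusp : X → CuspChart n lev) (x : X)
    (W : ℤ → Submodule ℚ (Fin n → ℚ)) (F : ℤ → Submodule ℂ (Fin n → ℂ)) : Prop :=
  (∃ p ∉ D, ∃ u ∈ ball (0 : ℂ) (disc p).rad,
    point p u = x ∧ (disc p).W = W ∧ (disc p).F u = F) ∨
  (∃ p ∈ D, ∃ z : ℂ, qexp z ∈ ball (0 : ℂ) (cusp p).rad ∧ point p ((qexp z) ^ (cusp p).e) = x ∧
    (cusp p).W = W ∧ (cusp p).F z = F)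

/-- `(W, F)` and `(W', F')` differ by a change of the rational basis. -/
def Related (W : ℤ → Submodule ℚ (Fin n → ℚ)) (F : ℤ → Submodule ℂ (Fin n → ℂ))
    (W' : ℤ → Submodule ℚ (Fin n → ℚ)) (F' : ℤ → Submodule ℂ (Fin n → ℂ)) : Prop :=
  ∃ γ : Matrix (Fin n) (Fin n) ℚ, γ.det ≠ 0 ∧ (∀ k, (W k).map γ.mulVecLin = W' k) ∧
    ∀ p, (F p).map (γ.map (fun t : ℚ => (t : ℂ))).mulVecLin = F' p

/-- An admissible variation `V` of mixed Hodge structure of rank `n` over `X ∖ D`, given by its local
period data. -/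
structure Variation (n : ℕ) (lev : Fin n → ℤ) (X : Type*) [TopologicalSpace X]
    [ChartedSpace ℂ X] (D : Set X) where
  /-- period data at the points of `X ∖ D` -/
  disc : X → DiscChart n lev
  /-- period data at the punctures -/
  cusp : X → CuspChart n lev
  disc_dom : ∀ p ∉ D, ∀ u ∈ ball (0 : ℂ) (disc p).rad,
    chartAt ℂ p p + u ∈ (chartAt ℂ p).target ∧ point p u ∉ D
  cusp_dom : ∀ p ∈ D, ∀ s ∈ ball (0 : ℂ) (cusp p).rad,
    chartAt ℂ p p + s ^ (cusp p).e ∈ (chartAt ℂ p).target ∧
      (s ≠ 0 → point p (s ^ (cusp p).e) ∉ D)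
  compat : ∀ x W F W' F', HasPeriod D disc cusp x W F → HasPeriod D disc cusp x W' F' →
    Related W F W' F'

/-- The condition on the ranks: let `w` be the rank of `W_{-2r-1}` and `b_p` the rank of the space of the
flat real sections of `F^p`; then `n ≤ w + b_{1-r} + r` and `b_{-i} ≤ b_{1-i} + i` for `0 < i < r`. -/
def Ranks (n r : ℕ) (w : ℕ) (b : ℤ → ℕ) : Prop :=
  n ≤ w + b (1 - r) + r ∧ ∀ i : ℕ, 0 < i → i < r → b (-i) ≤ b (1 - i) + i

/-- The condition on the ranks in all charts. -/
def Variation.Small {X : Type*} [TopologicalSpace X] [ChartedSpace ℂ X] {D : Set X}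
    (V : Variation n lev X D) (r : ℕ) : Prop :=
  (∀ p ∉ D, Ranks n r (Module.finrank ℚ ((V.disc p).W (-(2 * (r : ℤ) + 1))))
    fun q => Module.finrank ℝ ((V.disc p).flat q)) ∧
  (∀ p ∈ D, Ranks n r (Module.finrank ℚ ((V.cusp p).W (-(2 * (r : ℤ) + 1))))
    fun q => Module.finrank ℝ ((V.cusp p).flat q))

/-- For a subfield `K` of `ℝ`, the space of the Hodge classes over `K`: the vectors with coordinates in
`K` which lie in `F^0`. -/
def classes (K : Subfield ℝ) (F : ℤ → Submodule ℂ (Fin n → ℂ)) :
    Submodule K (Fin n → ℝ) where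
  carrier := {w | (∀ i, w i ∈ K) ∧ rv w ∈ F 0}
  zero_mem' := ⟨fun i => K.zero_mem, by
    have : rv (0 : Fin n → ℝ) = 0 := by ext i; simp [rv]
    rw [this]; exact (F 0).zero_mem⟩
  add_mem' := by
    rintro v w ⟨hv, hv'⟩ ⟨hw, hw'⟩
    refine ⟨fun i => K.add_mem (hv i) (hw i), ?_⟩
    have : rv (v + w) = rv v + rv w := by ext i; simp [rv]
    rw [this]; exact (F 0).add_mem hv' hw'
  smul_mem' := by
    rintro t v ⟨hv, hv'⟩
    refine ⟨fun i => K.mul_mem t.2 (hv i), ?_⟩
    have : rv (t • v) = ((t : ℝ) : ℂ) • rv v := by ext i; simp [rv, Subfield.smul_def]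
    rw [this]; exact (F 0).smul_mem _ hv'

end Pool.Agent.T2H44.RD
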