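import Pool.Agent.T2H44.RC.Coord

/-!
# Families of functions near a puncture and their models
-/

namespace Pool.Agent.T2H44.RD

open Filter Topology Metric Pool.Agent.Y92.Gap Pool.Agent.Y92.RS
open Pool.Agent.T2H44.RC (CuspModel cv dg wt ApproxStatement ModelStatement)
open Pool.Agent.T2H44.RC.P

/-- a family of functions near a puncture -/
structure Fam (V L : Type) [AddCommGroup V] [Module ℝ V] [Fintype L] where
  /-- logarithm of the monodromy -/
  N : V →ₗ[ℝ] V
  K : ℕ
  nilp : N ^ K = 0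
  /-- the radius -/
  rad : ℝ
  rad_pos : 0 < rad
  /-- the functions of `q` -/
  A : V →ₗ[ℝ] (ℂ → L → ℂ)
  an : ∀ w, ∀ q ∈ ball (0 : ℂ) rad, AnalyticAt ℂ (A w) q

namespace Fam

variable {V L : Type} [AddCommGroup V] [Module ℝ V] [Fintype L] (F : Fam V L)

/-- the value at `q` of the function of `z` -/
noncomputable def gq (w : V) (z q : ℂ) : L → ℂ :=
  ∑ a ∈ Finset.range F.K, ((a.factorial : ℂ)⁻¹ * (-z) ^ a) • F.A ((F.N ^ a) w) q

/-- the functions on the half plane -/
noncomputable def g (w : V) (z : ℂ) : L → ℂ := F.gq w z (qexp z)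

theorem zero_mem_ball : (0 : ℂ) ∈ ball (0 : ℂ) F.rad := mem_ball_self F.rad_pos

/-- the filtration by the order of vanishing at the puncture -/
noncomputable def Uf (m : ℕ) : Submodule ℝ V where
  carrier := {w | ∀ a : ℕ, (m : ℕ∞) ≤ analyticOrderAt (F.A ((F.N ^ a) w)) 0}
  zero_mem' := fun a => by
    have : analyticOrderAt (F.A ((F.N ^ a) 0)) 0 = ⊤ := by
      rw [analyticOrderAt_eq_top, map_zero, map_zero]
      simp
    rw [this]; exact le_top
  add_mem' := fun {v w} hv hw a => by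
    rw [map_add, map_add]
    exact le_trans (le_min (hv a) (hw a)) le_analyticOrderAt_add
  smul_mem' := fun t v hv a => by
    rw [map_smul, map_smul]
    have h1 : (t • F.A ((F.N ^ a) v)) = (fun _ : ℂ => (t : ℂ)) • F.A ((F.N ^ a) v) := by
      funext u l
      simp
    rw [h1, analyticOrderAt_smul analyticAt_const (F.an _ 0 F.zero_mem_ball)]
    exact le_trans (hv a) le_add_self

/-- the elements whose functions vanish identically -/
noncomputable def Ui : Submodule ℝ V where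
  carrier := {w | ∀ a : ℕ, ∀ q ∈ ball (0 : ℂ) F.rad, F.A ((F.N ^ a) w) q = 0}
  zero_mem' := fun a q _ => by rw [map_zero, map_zero]; rfl
  add_mem' := fun {v w} hv hw a q hq => by
    rw [map_add, map_add, Pi.add_apply, hv a q hq, hw a q hq, add_zero]
  smul_mem' := fun t v hv a q hq => by
    rw [map_smul, map_smul, Pi.smul_apply, hv a q hq, smul_zero]

theorem Uf_anti : Antitone F.Uf := fun a b hab w hw i =>
  le_trans (by exact_mod_cast hab) (hw i)

theorem Uf_zero : F.Uf 0 = ⊤ := by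
  rw [eq_top_iff]
  intro w _ a
  simp

theorem Ui_le (m : ℕ) : F.Ui ≤ F.Uf m := by
  intro w hw a
  have : analyticOrderAt (F.A ((F.N ^ a) w)) 0 = ⊤ := by
    rw [analyticOrderAt_eq_top]
    filter_upwards [isOpen_ball.mem_nhds F.zero_mem_ball] with q hq using hw a q hq
  rw [this]
  exact le_top

theorem mem_Ui {w : V} (h : ∀ m, w ∈ F.Uf m) : w ∈ F.Ui := by
  intro a q hq
  have h1 : analyticOrderAt (F.A ((F.N ^ a) w)) 0 = ⊤ :=
    ENat.eq_top_iff_forall_ge.2 fun m => h m a
  rw [analyticOrderAt_eq_top] at h1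
  have h2 : AnalyticOnNhd ℂ (F.A ((F.N ^ a) w)) (ball 0 F.rad) := fun u hu => F.an _ u hu
  exact h2.eqOn_zero_of_preconnected_of_eventuallyEq_zero (convex_ball _ _).isPreconnected
    F.zero_mem_ball h1 hq

theorem N_Uf {m : ℕ} {w : V} (h : w ∈ F.Uf m) : F.N w ∈ F.Uf m := by
  intro a
  have := h (a + 1)
  rwa [pow_succ] at this

theorem N_Ui {w : V} (h : w ∈ F.Ui) : F.N w ∈ F.Ui := by
  intro a
  have := h (a + 1)
  rwa [pow_succ] at this

theorem exists_model [FiniteDimensional ℝ V] : ∃ (ι : Type) (_ : Fintype ι) (_ : DecidableEq ι)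
    (S : CuspModel ι L) (P : V →ₗ[ℝ] (ι → ℝ)), S.ρ ≤ F.rad ∧
    (∀ z, qexp z ∈ ball (0 : ℂ) S.ρ → ∀ w, F.g w z = S.G (cv (P w)) z) ∧
    (∀ w, P w = 0 ↔ w ∈ F.Ui) ∧
    Function.Surjective P ∧
    (∀ (z : ℂ) w, S.b 0 (ex (S.Nq 0) (-z) (dg S.m 0 (cv (P w)))) = F.gq w z 0) ∧
    (∀ (a : ℕ) (x : ι → ℝ), (∀ j, x j ≠ 0 → S.m j = a) →
      (∀ i : ℕ, S.b 0 ((S.Nq 0 ^ i) (cv x)) = 0) → x = 0) := by
  classical
  obtain ⟨ι, _, m, P, E, hPE, hPU, hdec, hcoord, hEa, hind, hcard⟩ := exists_coord F.Uf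
    F.Uf_anti F.Uf_zero F.Ui F.Ui_le (fun w h => F.mem_Ui h)
  have h0r : (0 : ℂ) ∈ ball (0 : ℂ) F.rad := F.zero_mem_ball
  set R : (ι → ℝ) →ₗ[ℝ] (ι → ℝ) := P ∘ₗ F.N ∘ₗ E with hRdef
  have hR : ∀ w, P (F.N w) = R (P w) := by
    intro w
    have h1 : P (F.N (w - E (P w))) = 0 := hPU _ (F.N_Ui (hdec w))
    rw [map_sub, map_sub, sub_eq_zero] at h1
    exact h1
  have hRpow : ∀ (k : ℕ) w, P ((F.N ^ k) w) = (R ^ k) (P w) := by
    intro k
    induction k with
    | zero => intro w; simp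
    | succ k ih =>
      intro w
      rw [pow_succ, Module.End.mul_apply, ih, hR, pow_succ, Module.End.mul_apply]
  have hRn : R ^ F.K = 0 := by
    apply LinearMap.ext
    intro x
    rw [← hPE x, ← hRpow, F.nilp]
    simp
  have hcRn : (cxm R) ^ F.K = 0 := by
    apply ext_real
    intro x
    rw [cxm_pow_cv, hRn]
    simp [cv_zero]
  have hent : ∀ j k, m k < m j → R (Pi.single j 1) k = 0 := by
    intro j k hjk
    have h1 : E (Pi.single j 1) ∈ F.Uf (m j) := hEa (m j) _ fun j' hj' => by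
      by_contra hne
      have : j' ≠ j := fun h => hne (by rw [h])
      exact hj' (Pi.single_eq_of_ne this _)
    exact hcoord (m j) _ (F.N_Uf h1) k hjk
  -- the coefficient functions
  have hβ : ∀ j, ∃ β : ℂ → L → ℂ, AnalyticAt ℂ β 0 ∧
      ∀ᶠ q in 𝓝 0, F.A (E (Pi.single j 1)) q = (q - 0) ^ m j • β q := by
    intro j
    have h1 : E (Pi.single j 1) ∈ F.Uf (m j) := hEa (m j) _ fun j' hj' => by
      by_contra hne
      have : j' ≠ j := fun h => hne (by rw [h])
      exact hj' (Pi.single_eq_of_ne this _)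
    have h2 := h1 0
    rw [pow_zero, Module.End.one_apply] at h2
    exact (natCast_le_analyticOrderAt (F.an _ 0 h0r)).1 h2
  choose β hβa hβe using hβ
  have hev : ∀ᶠ q in 𝓝 (0 : ℂ), q ∈ ball (0 : ℂ) F.rad ∧ ∀ j, AnalyticAt ℂ (β j) q ∧
      F.A (E (Pi.single j 1)) q = q ^ m j • β j q := by
    refine Filter.Eventually.and (isOpen_ball.mem_nhds h0r) (eventually_all.2 fun j => ?_)
    refine (hβa j).eventually_analyticAt.and ?_
    simpa only [sub_zero] using hβe j
  obtain ⟨ρ, hρ, hρb⟩ := Metric.eventually_nhds_iff_ball.1 hev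
  set b : ℂ → (ι → ℂ) →L[ℂ] (L → ℂ) := fun q =>
    ∑ j, (ContinuousLinearMap.proj (R := ℂ) (φ := fun _ : ι => ℂ) j).smulRight (β j q) with hb
  have hba : ∀ q v, b q v = ∑ j, v j • β j q := by
    intro q v
    rw [hb]
    simp
  have hbd : ∀ q ∈ ball (0 : ℂ) ρ, DifferentiableAt ℂ b q := by
    intro q hq
    rw [hb]
    refine DifferentiableAt.fun_sum fun j _ => ?_
    have h1 := (ContinuousLinearMap.smulRightL ℂ (ι → ℂ) (L → ℂ)
      (ContinuousLinearMap.proj j)).differentiableAt.comp q ((hρb q hq).2 j).1.differentiableAt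
    exact h1
  have hEx : ∀ x, E x = ∑ j, x j • E (Pi.single j 1) := by
    intro x
    have h1 : x = ∑ i, x i • Pi.single i (1 : ℝ) := by
      ext j
      simp [Finset.sum_apply, Pi.single_apply]
    conv_lhs => rw [h1]
    rw [map_sum]
    exact Finset.sum_congr rfl fun i _ => map_smul _ _ _
  have hmain : ∀ q ∈ ball (0 : ℂ) ρ, ∀ w, F.A w q = b q (dg m q (cv (P w))) := by
    intro q hq w
    rw [hba]
    have h3 : F.A w q = F.A (E (P w)) q := by
      have h4 := hdec w 0 q ((hρb q hq).1)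
      rw [pow_zero, Module.End.one_apply, map_sub, Pi.sub_apply, sub_eq_zero] at h4
      exact h4
    rw [h3, hEx, map_sum, Finset.sum_apply]
    refine Finset.sum_congr rfl fun j _ => ?_
    rw [map_smul, Pi.smul_apply, ((hρb q hq).2 j).2, dg_apply]
    ext l
    simp only [Pi.smul_apply, Complex.real_smul, smul_eq_mul, cv]
    ring
  let S : CuspModel ι L :=
    { m := m
      K := F.K
      N := cxm R
      N_nilp := hcRn
      N_real := fun x => ⟨R x, cxm_cv _ _⟩
      Nq := NQ m (fun k j => R (Pi.single j 1) k)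
      Nq_diff := NQ_diff m _
      Nq_nilp := NQ_nilp hent hcRn
      Nq_dg := NQ_dg hent
      N0_real := NQ0_real _
      N0_dg := NQ0_dg _
      ρ := ρ
      ρ_pos := hρ
      b := b
      b_diff := fun q hq => (hbd q hq).differentiableWithinAt }
  have hgen : ∀ z, ∀ q ∈ ball (0 : ℂ) ρ, ∀ w,
      F.gq w z q = b q (dg m q (ex (cxm R) (-z) (cv (P w)))) := by
    intro z q hq w
    have hT : ∀ (T : (ι → ℂ) →L[ℂ] (L → ℂ)) (v : ι → ℂ), T (ex (cxm R) (-z) v)
        = ∑ a ∈ Finset.range F.K, ((a.factorial : ℂ)⁻¹ * (-z) ^ a) • T (((cxm R) ^ a) v) := by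
      intro T v
      rw [ex_eq_sum hcRn, _root_.sum_apply, map_sum]
      refine Finset.sum_congr rfl fun a _ => ?_
      rw [_root_.smul_apply, map_smul]
    have h1 := hT ((b q).comp (dg m q)) (cv (P w))
    rw [ContinuousLinearMap.comp_apply] at h1
    rw [h1]
    unfold gq
    refine Finset.sum_congr rfl fun a _ => ?_
    rw [ContinuousLinearMap.comp_apply, hmain q hq, hRpow, cxm_pow_cv]
  refine ⟨ι, inferInstance, inferInstance, S, P, ?_, ?_, ?_, ?_, ?_, ?_⟩
  · -- radius
    by_contra hlt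
    have hlt' : F.rad < ρ := not_le.1 hlt
    have h1 := (hρb ((F.rad : ℝ) : ℂ) (by
      rw [mem_ball_zero_iff, Complex.norm_real, Real.norm_of_nonneg F.rad_pos.le]
      exact hlt')).1
    rw [mem_ball_zero_iff, Complex.norm_real, Real.norm_of_nonneg F.rad_pos.le] at h1
    exact lt_irrefl _ h1
  · intro z hz w
    exact hgen z _ hz w
  · intro w
    constructor
    · intro hw
      have := hdec w
      rwa [hw, map_zero, sub_zero] at this
    · exact hPU w
  · intro x
    exact ⟨E x, hPE x⟩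
  · intro z w
    have h1 : ex (S.Nq 0) (-z) (dg S.m 0 (cv (P w))) = dg m 0 (ex (cxm R) (-z) (cv (P w))) :=
      (ex_intertwine (T := dg m 0) (fun v => (S.Nq_dg 0 v).symm) S.N_nilp (S.Nq_nilp 0) _ _).symm
    rw [h1]
    exact (hgen z 0 (mem_ball_self hρ) w).symm
  · intro a x hx hS
    refine hind a x hx fun i => ?_
    have h1 : F.A ((F.N ^ i) (E x)) =ᶠ[𝓝 0]
        fun q => (q - 0) ^ a • b q ((S.Nq q ^ i) (cv x)) := by
      filter_upwards [isOpen_ball.mem_nhds (mem_ball_self hρ)] with q hq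
      rw [hmain q hq, hRpow, hPE, ← cxm_pow_cv, ← NQ_pow_dg hent]
      have h3 : dg m q (cv x) = q ^ a • cv x := by
        funext j
        rw [dg_apply, Pi.smul_apply, smul_eq_mul]
        by_cases hxj : x j = 0
        · simp [cv, hxj]
        · have : m j = a := hx j hxj
          rw [this]
      rw [h3, map_smul, map_smul, sub_zero]
    rw [analyticOrderAt_congr h1]
    have hfa : AnalyticAt ℂ (fun q => b q ((S.Nq q ^ i) (cv x))) 0 := by
      refine DifferentiableOn.analyticAt (s := ball (0 : ℂ) ρ) (fun q hq => ?_)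
        (isOpen_ball.mem_nhds (mem_ball_self hρ))
      have h2 : DifferentiableAt ℂ (fun q => S.Nq q ^ i) q := (S.Nq_diff q).fun_pow i
      exact ((hbd q hq).clm_apply (h2.clm_apply (differentiableAt_const _))).differentiableWithinAt
    have hpow : AnalyticAt ℂ (fun v : ℂ => (v - 0) ^ a) 0 :=
      (analyticAt_id.sub analyticAt_const).pow _
    have h3 := analyticOrderAt_smul hpow hfa
    change analyticOrderAt (fun q => (q - 0) ^ a • b q ((S.Nq q ^ i) (cv x))) 0 = _ at h3
    have h4 : analyticOrderAt (fun v : ℂ => (v - 0) ^ a) 0 = a :=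
      analyticOrderAt_centeredMonomial (𝕜 := ℂ) (z₀ := 0) (n := a)
    rw [h3, h4]
    have h5 : analyticOrderAt (fun q => b q ((S.Nq q ^ i) (cv x))) 0 ≠ 0 :=
      analyticOrderAt_ne_zero.2 ⟨hfa, hS i⟩
    have h6 : ((a + 1 : ℕ) : ℕ∞) = (a : ℕ∞) + 1 := by push_cast; rfl
    rw [h6]
    exact add_le_add_right (ENat.one_le_iff_ne_zero.2 h5) _

end Fam

end Pool.Agent.T2H44.RD
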