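import Pool.Agent.T2H44.RD.Fam
import Pool.Agent.Y92.RS.PairDisc

/-!
# Zeros of high order near a puncture
-/

namespace Pool.Agent.T2H44.RD

open Filter Topology Metric Pool.Agent.Y92.Gap Pool.Agent.Y92.RS
open Pool.Agent.T2H44.RC (CuspModel cv dg wt ApproxStatement ModelStatement)
open Pool.Agent.T2H44.RC.P

theorem qexp_cont : Continuous qexp :=
  continuous_iff_continuousAt.2 fun z => (hasDerivAt_qq z).continuousAt

namespace Fam

variable {V L : Type} [AddCommGroup V] [Module ℝ V] [Fintype L] (F : Fam V L)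

/-- the differential equation at the puncture -/
theorem ode_zero {ι : Type} [Fintype ι] [DecidableEq ι] (S : CuspModel ι L)
    {P : V →ₗ[ℝ] (ι → ℝ)} (hP : Function.Surjective P) (hρ : S.ρ ≤ F.rad)
    (hG : ∀ z, qexp z ∈ ball (0 : ℂ) S.ρ → ∀ w, F.g w z = S.G (cv (P w)) z)
    {deep : L → Prop} {Mq : ℂ → L → L → ℂ} (hM : ∀ l l', ContinuousAt (fun q => Mq q l l') 0)
    (hode : ∀ z, qexp z ∈ ball (0 : ℂ) F.rad → ∀ w l, deep l →
      deriv (fun x => F.g w x l) z = ∑ l', Mq (qexp z) l l' * F.g w z l')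
    (y : ι → ℂ) (l : L) (hl : deep l) :
    S.c 1 y l = ∑ l', Mq 0 l l' * S.b 0 y l' := by
  set F₁ : ℂ → ℂ := fun q => ((2 * Real.pi * Complex.I * q) • (deriv S.b q) y
    + S.b q ((2 * Real.pi * Complex.I) • wt S.m y - S.Nq q y)) l with hF₁
  set F₂ : ℂ → ℂ := fun q => ∑ l', Mq q l l' * S.b q y l' with hF₂
  have h0 : (0 : ℂ) ∈ ball (0 : ℂ) S.ρ := mem_ball_self S.ρ_pos
  have hball : ball (0 : ℂ) S.ρ ∈ 𝓝 (0 : ℂ) := isOpen_ball.mem_nhds h0
  have hbc : ContinuousAt S.b 0 := (S.b_diff.differentiableAt hball).continuousAt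
  have heq : ∀ q ∈ ball (0 : ℂ) S.ρ, q ≠ 0 → F₁ q = F₂ q := by
    intro q hq hq0
    obtain ⟨z, rfl⟩ := exists_qq hq0
    change qexp z ∈ ball (0 : ℂ) S.ρ at hq
    have hzO : qexp z ∈ ball (0 : ℂ) F.rad := ball_subset_ball hρ hq
    -- both sides are linear in `y`
    have hlin : ∀ x : ι → ℝ,
        ((2 * Real.pi * Complex.I * qexp z) • (deriv S.b (qexp z))
          (dg S.m (qexp z) (ex S.N (-z) (cv x))) + S.b (qexp z) ((2 * Real.pi * Complex.I) •
            wt S.m (dg S.m (qexp z) (ex S.N (-z) (cv x))) - S.Nq (qexp z)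
              (dg S.m (qexp z) (ex S.N (-z) (cv x))))) l
        = ∑ l', Mq (qexp z) l l' * S.b (qexp z) (dg S.m (qexp z) (ex S.N (-z) (cv x))) l' := by
      intro x
      obtain ⟨w, rfl⟩ := hP x
      have h1 := hasDerivAt_G S (cv (P w)) hq
      have h2 : (fun x => F.g w x l) =ᶠ[𝓝 z] fun x => S.G (cv (P w)) x l := by
        filter_upwards [(isOpen_ball.preimage qexp_cont).mem_nhds hq] with x hx
        rw [hG x hx]
      have h3 := hode z hzO w l hl
      rw [h2.deriv_eq, ((hasDerivAt_pi.1 h1) l).deriv, hG z hq] at h3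
      exact h3
    set T : (ι → ℂ) →L[ℂ] (ι → ℂ) := (dg S.m (qexp z)).comp (ex S.N (-z)) with hT
    have hlin2 : (ContinuousLinearMap.proj (R := ℂ) (φ := fun _ : L => ℂ) l).comp
        (((2 * Real.pi * Complex.I * qexp z) • (deriv S.b (qexp z)) +
          (S.b (qexp z)).comp ((2 * Real.pi * Complex.I) • wt S.m - S.Nq (qexp z))).comp T)
        = (∑ l', Mq (qexp z) l l' • (ContinuousLinearMap.proj (R := ℂ) (φ := fun _ : L => ℂ)
            l').comp (S.b (qexp z))).comp T := by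
      apply ext_real
      intro x
      have h5 : ((∑ l', Mq (qexp z) l l' • (ContinuousLinearMap.proj (R := ℂ)
            (φ := fun _ : L => ℂ) l').comp (S.b (qexp z))).comp T) (cv x)
          = ∑ l', Mq (qexp z) l l' * S.b (qexp z) (T (cv x)) l' := by
        rw [ContinuousLinearMap.comp_apply, _root_.sum_apply]
        rfl
      rw [h5]
      exact hlin x
    obtain ⟨w, hw⟩ := dg_surj S.m hq0 y
    have hTw : T (ex S.N z w) = y := by
      show dg S.m (qexp z) (ex S.N (-z) (ex S.N z w)) = y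
      rw [ex_neg_apply]
      exact hw
    have h6 := congrArg (fun A => A (ex S.N z w)) hlin2
    have h7 : ((∑ l', Mq (qexp z) l l' • (ContinuousLinearMap.proj (R := ℂ)
          (φ := fun _ : L => ℂ) l').comp (S.b (qexp z))).comp T) (ex S.N z w)
        = ∑ l', Mq (qexp z) l l' * S.b (qexp z) (T (ex S.N z w)) l' := by
      rw [ContinuousLinearMap.comp_apply, _root_.sum_apply]
      rfl
    rw [h7, hTw] at h6
    rw [hF₂]
    refine Eq.trans ?_ h6
    rw [ContinuousLinearMap.comp_apply, ContinuousLinearMap.comp_apply, hTw]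
    rfl
  have hc1 : ContinuousAt F₁ 0 := by
    have e1 : ContinuousAt (fun q => deriv S.b q) 0 :=
      ((S.b_diff.analyticAt hball).deriv).continuousAt
    have e2 : ContinuousAt (fun q => (deriv S.b q) y) 0 := e1.clm_apply continuousAt_const
    have e3 : ContinuousAt (fun q : ℂ => 2 * Real.pi * Complex.I * q) 0 :=
      (continuous_const.mul continuous_id).continuousAt
    have e4 : ContinuousAt (fun q => S.Nq q y) 0 :=
      S.Nq_diff.continuous.continuousAt.clm_apply continuousAt_const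
    have e5 : ContinuousAt (fun q => (2 * Real.pi * Complex.I) • wt S.m y - S.Nq q y) 0 :=
      continuousAt_const.sub e4
    have e6 : ContinuousAt
        (fun q => S.b q ((2 * Real.pi * Complex.I) • wt S.m y - S.Nq q y)) 0 :=
      hbc.clm_apply e5
    have e7 := (e3.smul e2).add e6
    exact (continuous_apply l).continuousAt.tendsto.comp e7.tendsto
  have hc2 : ContinuousAt F₂ 0 := by
    refine tendsto_finset_sum _ fun l' _ => ?_
    have e1 : ContinuousAt (fun q => S.b q y) 0 := hbc.clm_apply continuousAt_const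
    have e2 : ContinuousAt (fun q => S.b q y l') 0 :=
      (continuous_apply l').continuousAt.tendsto.comp e1.tendsto
    exact (hM l l').mul e2
  have hne : F₁ =ᶠ[𝓝[≠] 0] F₂ := by
    have h1 : ∀ᶠ q in 𝓝[≠] (0 : ℂ), q ∈ ball (0 : ℂ) S.ρ := nhdsWithin_le_nhds hball
    filter_upwards [h1, self_mem_nhdsWithin] with q hq hq0
    exact heq q hq hq0
  have h1 : Tendsto F₁ (𝓝[≠] 0) (𝓝 (F₁ 0)) := hc1.tendsto.mono_left nhdsWithin_le_nhds
  have h2 : Tendsto F₂ (𝓝[≠] 0) (𝓝 (F₂ 0)) := hc2.tendsto.mono_left nhdsWithin_le_nhds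
  have h3 := tendsto_nhds_unique (h1.congr' hne) h2
  have h4 : F₁ 0 = S.c 1 y l := by
    rw [hF₁]
    simp only [mul_zero, zero_smul, zero_add]
    unfold CuspModel.c
    rw [pow_one]
    rfl
  rw [← h4, h3]

theorem core [FiniteDimensional ℝ V] (happ : ApproxStatement) (hmod : ModelStatement) {r : ℕ}
    (hr : 1 ≤ r) {deep : L → Prop} {Mq : ℂ → L → L → ℂ}
    (hM : ∀ l l', ContinuousAt (fun q => Mq q l l') 0)
    (hode : ∀ z, qexp z ∈ ball (0 : ℂ) F.rad → ∀ w l, deep l →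
      deriv (fun x => F.g w x l) z = ∑ l', Mq (qexp z) l l' * F.g w z l')
    (H : Submodule ℝ V)
    (hH : Module.finrank ℝ V ≤ Module.finrank ℝ H + Module.finrank ℝ F.Ui + r) (c₀ : ℝ)
    (hlim : ∀ z : ℂ, c₀ < z.im → ∀ w ∈ H, (∀ l, deep l → F.gq w z 0 l = 0) → w = 0) :
    ∃ y₁ : ℝ, ∀ z : ℂ, y₁ < z.im → qexp z ∈ ball (0 : ℂ) F.rad →
      ∀ w, (r : ℕ∞) ≤ analyticOrderAt (F.g w) z → w ∈ F.Ui := by
  obtain ⟨ι, _, _, S, P, hρ, hG, hker, hsurj, hzero, hindep⟩ := F.exists_model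
  have hHU : ∀ w ∈ H, P w = 0 → w = 0 := by
    intro w hw hPw
    rw [hker] at hPw
    refine hlim (((c₀ + 1 : ℝ) : ℂ) * Complex.I) (by simp) w hw fun l _ => ?_
    unfold gq
    rw [Finset.sum_apply]
    refine Finset.sum_eq_zero fun a _ => ?_
    rw [hPw a 0 F.zero_mem_ball]
    simp
  have hHrank : Module.finrank ℝ (H.map P) = Module.finrank ℝ H := by
    have hinj : Function.Injective (P.domRestrict H) := by
      rw [injective_iff_map_eq_zero]
      intro w hw
      exact Subtype.ext (hHU w w.2 hw)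
    rw [← LinearMap.range_domRestrict]
    exact LinearMap.finrank_range_of_inj hinj
  have hkerU : LinearMap.ker P = F.Ui := by
    ext w
    rw [LinearMap.mem_ker, hker]
  have hcard : Fintype.card ι ≤ Module.finrank ℝ (H.map P) + r := by
    have h1 := LinearMap.finrank_range_add_finrank_ker P
    rw [LinearMap.range_eq_top.2 hsurj, finrank_top, hkerU, Module.finrank_fintype_fun_eq_card] at h1
    omega
  have hHlim : ∀ z : ℂ, c₀ < z.im → ∀ x ∈ H.map P,
      (∀ l, deep l → S.b 0 (ex (S.Nq 0) (-z) (dg S.m 0 (cv x))) l = 0) → x = 0 := by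
    rintro z hz x ⟨w, hw, rfl⟩ hl
    have h5 : w = 0 := hlim z hz w hw fun l hdl => by
      rw [← hzero]
      exact hl l hdl
    rw [h5, map_zero]
  have key : ∃ y₁ : ℝ, ∀ z : ℂ, y₁ < z.im → qexp z ∈ ball (0 : ℂ) S.ρ → ∀ x : ι → ℝ,
      (r : ℕ∞) ≤ analyticOrderAt (S.G (cv x)) z → x = 0 := by
    by_contra hcon
    push Not at hcon
    refine hmod ι L S r deep (fun l l' => Mq 0 l l') (H.map P) c₀ hr hindep
      (fun v l hl => F.ode_zero S hsurj hρ hG hM hode v l hl) hcard hHlim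
      (happ ι L S r fun y₁ => ?_)
    obtain ⟨z, hz, hq, x, hx, hx0⟩ := hcon y₁
    exact ⟨z, hz, hq, x, hx0, hx⟩
  obtain ⟨y₁, hy₁⟩ := key
  obtain ⟨y₂, hy₂1, hy₂⟩ := exists_exp_le S.ρ_pos y₁
  refine ⟨y₂, fun z hz _ w hw => ?_⟩
  have hq : qexp z ∈ ball (0 : ℂ) S.ρ := norm_qq_lt hy₂ hz
  have h2 : F.g w =ᶠ[𝓝 z] S.G (cv (P w)) := by
    filter_upwards [(isOpen_ball.preimage qexp_cont).mem_nhds hq] with x hx
    rw [hG x hx]
  rw [analyticOrderAt_congr h2] at hw
  rw [← hker]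
  exact hy₁ z (lt_of_le_of_lt hy₂1 hz) hq (P w) hw

end Fam

end Pool.Agent.T2H44.RD
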