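import Pool.Agent.T2H44.RD.Global
import Pool.Agent.T2H44.RD.Cusp
import Pool.Agent.T2H44.RC.QE
import Pool.Agent.T2H44.RC.Approx
import Pool.Agent.T2H44.RC.Model

/-!
# The exceptional set
-/

namespace Pool.Agent.T2H44.RD

open Filter Metric Set Pool.Agent.Y92.Gap
open scoped Topology

variable {n : ℕ} {lev : Fin n → ℤ}

instance finite_top : Module.Finite (⊤ : Subfield ℝ) (Fin n → ℝ) := by
  have h1 : Module.Finite (⊤ : Subfield ℝ) ℝ :=
    Module.Finite.of_surjective (LinearMap.toSpanSingleton (⊤ : Subfield ℝ) ℝ 1) fun x =>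
      ⟨⟨x, Subfield.mem_top x⟩, by simp [Subfield.smul_def]⟩
  exact Module.Finite.pi

section

variable {X : Type*} [TopologicalSpace X] [ChartedSpace ℂ X] [T2Space X] {D : Set X}

theorem ev_not_mem {E : Set X} (hE : E.Finite) (p : X) : ∀ᶠ x in 𝓝[≠] p, x ∉ E := by
  have h1 : IsClosed (E \ {p}) := (hE.subset diff_subset).isClosed
  have h2 : ∀ᶠ x in 𝓝 p, x ∉ E \ {p} := h1.isOpen_compl.mem_nhds (by simp)
  filter_upwards [nhdsWithin_le_nhds h2, self_mem_nhdsWithin] with x hx hxp hxE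
  exact hx ⟨hxE, hxp⟩

/-- near the centre of a disc chart the exceptional points are avoided -/
theorem ev_disc (V : Variation n lev X D) {p : X} (hp : p ∉ D) {E : Set X} (hE : E.Finite) :
    ∀ᶠ u in 𝓝[≠] (0 : ℂ), point p u ∉ E := by
  have h1 : Tendsto (fun s : ℂ => point p s) (𝓝[≠] 0) (𝓝[≠] p) := by
    refine tendsto_nhdsWithin_of_tendsto_nhds_of_eventually_within _
      ((Pool.Agent.Y92.RS.tendsto_pt p).mono_left nhdsWithin_le_nhds) ?_
    have h3 : ∀ᶠ s in 𝓝[≠] (0 : ℂ), s ∈ ball (0 : ℂ) (V.disc p).rad :=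
      nhdsWithin_le_nhds (isOpen_ball.mem_nhds (mem_ball_self (V.disc p).rad_pos))
    filter_upwards [h3, self_mem_nhdsWithin] with s hs hs0 h
    have h4 := V.disc_dom p hp s hs
    apply hs0
    have h5 : chartAt ℂ p (point p s) = chartAt ℂ p p + s := (chartAt ℂ p).right_inv h4.1
    have h6 : point p s = p := h
    rw [h6] at h5
    simpa using h5.symm
  exact h1.eventually (ev_not_mem hE p)

/-- near a puncture the exceptional points are avoided -/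
theorem ev_cusp (V : Variation n lev X D) {p : X} (hp : p ∈ D) {E : Set X} (hE : E.Finite) :
    ∀ᶠ s in 𝓝[≠] (0 : ℂ), point p (s ^ (V.cusp p).e) ∉ E := by
  have h1 : Tendsto (fun s : ℂ => point p (s ^ (V.cusp p).e)) (𝓝[≠] 0) (𝓝[≠] p) := by
    refine tendsto_nhdsWithin_of_tendsto_nhds_of_eventually_within _ ?_ ?_
    · have h1 : Tendsto (fun s : ℂ => point p (s ^ (V.cusp p).e)) (𝓝 0) (𝓝 p) := by
        refine (Pool.Agent.Y92.RS.tendsto_pt p).comp ?_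
        have : Tendsto (fun s : ℂ => s ^ (V.cusp p).e) (𝓝 0) (𝓝 (0 ^ (V.cusp p).e)) :=
          (continuous_pow _).tendsto 0
        rwa [zero_pow (V.cusp p).e_pos.ne'] at this
      exact h1.mono_left nhdsWithin_le_nhds
    have h3 : ∀ᶠ s in 𝓝[≠] (0 : ℂ), s ∈ ball (0 : ℂ) (V.cusp p).rad :=
      nhdsWithin_le_nhds (isOpen_ball.mem_nhds (mem_ball_self (V.cusp p).rad_pos))
    filter_upwards [h3, self_mem_nhdsWithin] with s hs hs0 h
    have h4 := (V.cusp_dom p hp s hs).2 hs0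
    have h6 : point p (s ^ (V.cusp p).e) = p := h
    rw [h6] at h4
    exact h4 hp
  exact h1.eventually (ev_not_mem hE p)

end

theorem main {r : ℕ} (hr : 1 ≤ r) {X : Type*} [TopologicalSpace X] [ChartedSpace ℂ X]
    [CompactSpace X] [ConnectedSpace X] [T2Space X] {D : Set X} (V : Variation n lev X D)
    (hV : V.Small r) :
    ∃ E : Set X, E.Finite ∧
      (∀ p ∉ D, ∀ u ∈ ball (0 : ℂ) (V.disc p).rad, point p u ∉ E →
        ∀ w, rv w ∈ (V.disc p).F u 0 → w ∈ (V.disc p).flat 0) ∧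
      (∀ p ∈ D, ∀ z, qexp z ∈ ball (0 : ℂ) (V.cusp p).rad → point p (qexp z ^ (V.cusp p).e) ∉ E →
        ∀ w, rv w ∈ (V.cusp p).F z 0 → w ∈ (V.cusp p).flat 0) ∧
      ∀ K : Subfield ℝ, ∃ d : ℕ, ∀ x ∉ D, x ∉ E → ∀ W F, HasPeriod D V.disc V.cusp x W F →
        Module.finrank K (classes K F) = d := by
  have happ := Pool.Agent.T2H44.RC.approx Pool.Agent.T2H44.RC.qe
  have hmod := Pool.Agent.T2H44.RC.model
  have hdisc : ∀ p ∉ D, ∀ᶠ u in 𝓝[≠] (0 : ℂ), ∀ w, rv w ∈ (V.disc p).F u 0 →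
      w ∈ (V.disc p).flat 0 := fun p hp => disc_local (V.disc p) hr (hV.1 p hp)
  have hcusp : ∀ p ∈ D, ∃ y₁ : ℝ, ∀ z : ℂ, y₁ < z.im → qexp z ∈ ball (0 : ℂ) (V.cusp p).rad →
      ∀ w, rv w ∈ (V.cusp p).F z 0 → w ∈ (V.cusp p).flat 0 :=
    fun p hp => cusp_local (V.cusp p) happ hmod hr (hV.2 p hp)
  have h1 : ∀ p ∉ D, ∃ ε > 0, ε ≤ (V.disc p).rad ∧ ∃ B : Set (Fin n → ℝ), ∀ u : ℂ, u ≠ 0 →
      ‖u‖ < ε → ∀ w, rv w ∈ (V.disc p).F u 0 ↔ w ∈ B := by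
    intro p hp
    have h := hdisc p hp
    rw [eventually_nhdsWithin_iff, Metric.eventually_nhds_iff] at h
    obtain ⟨ε, hε, h⟩ := h
    refine ⟨min ε (V.disc p).rad, lt_min hε (V.disc p).rad_pos, min_le_right _ _,
      (V.disc p).flat 0, fun u hu0 hu w => ⟨fun hw => h (y := u) ?_ hu0 w hw, fun hw => hw u ?_⟩⟩
    · rw [dist_zero_right]; exact lt_of_lt_of_le hu (min_le_left _ _)
    · rw [mem_ball_zero_iff]; exact lt_of_lt_of_le hu (min_le_right _ _)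
  have h2 : ∀ p ∈ D, ∃ (y₁ : ℝ) (B : Set (Fin n → ℝ)), ∀ z : ℂ, y₁ < z.im →
      qexp z ∈ ball (0 : ℂ) (V.cusp p).rad → ∀ w, rv w ∈ (V.cusp p).F z 0 ↔ w ∈ B := by
    intro p hp
    obtain ⟨y₁, h⟩ := hcusp p hp
    exact ⟨y₁, (V.cusp p).flat 0, fun z hz hzr w => ⟨h z hz hzr w, fun hw => hw z hzr⟩⟩
  obtain ⟨d, hE⟩ := global V ⊤ h1 h2
  set E : Set X := {x | x ∉ D ∧ ∃ W F, HasPeriod D V.disc V.cusp x W F ∧
    Module.finrank (⊤ : Subfield ℝ) (classes ⊤ F) ≠ d} with hEdef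
  have hEd : ∀ x ∉ D, x ∉ E → ∀ W F, HasPeriod D V.disc V.cusp x W F →
      Module.finrank (⊤ : Subfield ℝ) (classes ⊤ F) = d := by
    intro x hxD hx W F hper
    by_contra hne
    exact hx ⟨hxD, W, F, hper, hne⟩
  -- flatness in the disc charts
  have hflat : ∀ p ∉ D, ∀ u ∈ ball (0 : ℂ) (V.disc p).rad, point p u ∉ E →
      ∀ w, rv w ∈ (V.disc p).F u 0 → w ∈ (V.disc p).flat 0 := by
    intro p hp u hu huE w hw
    have h3 : ∀ᶠ s in 𝓝[≠] (0 : ℂ), s ∈ ball (0 : ℂ) (V.disc p).rad :=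
      nhdsWithin_le_nhds (isOpen_ball.mem_nhds (mem_ball_self (V.disc p).rad_pos))
    obtain ⟨s, ⟨hs1, hs2⟩, hs3⟩ := (((hdisc p hp).and (ev_disc V hp hE)).and h3).exists
    have hle : classes ⊤ ((V.disc p).F s) ≤ classes ⊤ ((V.disc p).F u) := by
      intro w' hw'
      exact ⟨hw'.1, hs1 w' hw'.2 u hu⟩
    have hd1 := hEd (point p s) (V.disc_dom p hp s hs3).2 hs2 _ _
      (Or.inl ⟨p, hp, s, hs3, rfl, rfl, rfl⟩)
    have hd2 := hEd (point p u) (V.disc_dom p hp u hu).2 huE _ _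
      (Or.inl ⟨p, hp, u, hu, rfl, rfl, rfl⟩)
    have heq := Submodule.eq_of_le_of_finrank_eq hle (hd1.trans hd2.symm)
    have hw2 : w ∈ classes ⊤ ((V.disc p).F u) := ⟨fun i => Subfield.mem_top _, hw⟩
    rw [← heq] at hw2
    exact hs1 w hw2.2
  -- flatness in the cusp charts
  have hflat2 : ∀ p ∈ D, ∀ z, qexp z ∈ ball (0 : ℂ) (V.cusp p).rad →
      point p (qexp z ^ (V.cusp p).e) ∉ E →
      ∀ w, rv w ∈ (V.cusp p).F z 0 → w ∈ (V.cusp p).flat 0 := by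
    intro p hp z hz hzE w hw
    obtain ⟨y₁, hy₁⟩ := hcusp p hp
    have h3 : ∀ᶠ s in 𝓝[≠] (0 : ℂ), s ∈ ball (0 : ℂ)
        (min (V.cusp p).rad (Real.exp (-(2 * Real.pi * y₁)))) :=
      nhdsWithin_le_nhds (isOpen_ball.mem_nhds (mem_ball_self
        (lt_min (V.cusp p).rad_pos (Real.exp_pos _))))
    obtain ⟨s, ⟨hs1, hs2⟩, hs3⟩ := (((ev_cusp V hp hE).and h3).and self_mem_nhdsWithin).exists
    obtain ⟨z₀, hz₀⟩ := Pool.Agent.Y92.RS.exists_qq hs3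
    have hz₀' : qexp z₀ = s := hz₀
    rw [mem_ball_zero_iff] at hs2
    have hz₀r : qexp z₀ ∈ ball (0 : ℂ) (V.cusp p).rad := by
      rw [hz₀', mem_ball_zero_iff]
      exact lt_of_lt_of_le hs2 (min_le_left _ _)
    have hz₀im : y₁ < z₀.im := by
      apply Pool.Agent.Y92.RS.im_lt_of_norm_qq
      rw [hz₀]
      exact lt_of_lt_of_le hs2 (min_le_right _ _)
    have hle : classes ⊤ ((V.cusp p).F z₀) ≤ classes ⊤ ((V.cusp p).F z) := by
      intro w' hw'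
      exact ⟨hw'.1, hy₁ z₀ hz₀im hz₀r w' hw'.2 z hz⟩
    have hd1 := hEd (point p (qexp z₀ ^ (V.cusp p).e))
      ((V.cusp_dom p hp _ hz₀r).2 (Pool.Agent.Y92.RS.qq_ne_zero z₀)) (by rw [hz₀']; exact hs1) _ _
      (Or.inr ⟨p, hp, z₀, hz₀r, rfl, rfl, rfl⟩)
    have hd2 := hEd (point p (qexp z ^ (V.cusp p).e))
      ((V.cusp_dom p hp _ hz).2 (Pool.Agent.Y92.RS.qq_ne_zero z)) hzE _ _
      (Or.inr ⟨p, hp, z, hz, rfl, rfl, rfl⟩)
    have heq := Submodule.eq_of_le_of_finrank_eq hle (hd1.trans hd2.symm)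
    have hw2 : w ∈ classes ⊤ ((V.cusp p).F z) := ⟨fun i => Subfield.mem_top _, hw⟩
    rw [← heq] at hw2
    exact hy₁ z₀ hz₀im hz₀r w hw2.2
  refine ⟨E, hE, hflat, hflat2, fun K => ?_⟩
  obtain ⟨dK, hK⟩ := global V K h1 h2
  refine ⟨dK, fun x hxD hxE W F hper => ?_⟩
  have h0 : point x (0 : ℂ) = x := Pool.Agent.Y92.RS.pt_zero x
  have h0b : (0 : ℂ) ∈ ball (0 : ℂ) (V.disc x).rad := mem_ball_self (V.disc x).rad_pos
  have hper0 : HasPeriod D V.disc V.cusp x (V.disc x).W ((V.disc x).F 0) :=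
    Or.inl ⟨x, hxD, 0, h0b, h0, rfl, rfl⟩
  rw [finrank_classes_of_related K (V.compat x W F _ _ hper hper0)]
  have h3 : ∀ᶠ s in 𝓝[≠] (0 : ℂ), s ∈ ball (0 : ℂ) (V.disc x).rad :=
    nhdsWithin_le_nhds (isOpen_ball.mem_nhds h0b)
  obtain ⟨s, ⟨hs1, hs2⟩, hs3⟩ := (((hdisc x hxD).and (ev_disc V hxD hK)).and h3).exists
  have hcl : classes K ((V.disc x).F 0) = classes K ((V.disc x).F s) := by
    apply classes_congr
    intro w
    constructor
    · intro hw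
      exact hflat x hxD 0 h0b (by rw [h0]; exact hxE) w hw s hs3
    · intro hw
      exact hs1 w hw 0 h0b
  rw [hcl]
  by_contra hne
  exact hs2 ⟨(V.disc_dom x hxD s hs3).2, _, _, Or.inl ⟨x, hxD, s, hs3, rfl, rfl, rfl⟩, hne⟩

end Pool.Agent.T2H44.RD
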