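import Pool.Agent.T2H44.RC.Adapt
import Pool.Agent.T2H44.RD.Defs
import Pool.Agent.Y92.GS.Frames

/-!
# Flat sections in a frame adapted to the Hodge filtration
-/

namespace Pool.Agent.T2H44.RD

open Filter Topology Metric Pool.Agent.Y92.Gap Pool.Agent.Y92.RS Pool.Agent.Y92.GS Pool.Agent.T2H44.RC

variable {n : ℕ} {lev : Fin n → ℤ}

/-! ### Linear algebra -/

theorem isR_rv (w : Fin n → ℝ) : IsR (rv w) := fun _ => Complex.ofReal_im _

theorem rv_add (v w : Fin n → ℝ) : rv (v + w) = rv v + rv w := by ext i; simp [rv]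

theorem rv_smul (t : ℝ) (w : Fin n → ℝ) : rv (t • w) = (t : ℂ) • rv w := by ext i; simp [rv]

theorem rv_zero : rv (0 : Fin n → ℝ) = 0 := by ext i; simp [rv]

theorem rv_inj {v w : Fin n → ℝ} (h : rv v = rv w) : v = w := by
  ext i
  have := congrFun h i
  simpa [rv] using this

/-- no nonzero real vectors in `W_{-2r-1} ∩ F^{-r}` -/
theorem real_zero {W : ℤ → Submodule ℚ (Fin n → ℚ)} {F : ℤ → Submodule ℂ (Fin n → ℂ)} {r : ℕ}
    (h : IsMHS W F) {v : Fin n → ℂ} (hW : v ∈ cplx (W (-(2 * (r : ℤ) + 1))))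
    (hv : v ∈ F (-(r : ℤ))) (hr : IsR v) : v = 0 := by
  have hstep : ∀ k ≤ (-(2 * (r : ℤ) + 1)), v ∈ cplx (W k) → v ∈ cplx (W (k - 1)) := by
    intro k hk hvk
    apply h.inter k (-(r : ℤ))
    refine ⟨Submodule.mem_sup_left ⟨hvk, hv⟩, Submodule.mem_sup_left ⟨hvk, ?_⟩⟩
    exact conj_mem_of_isR hr (h.F_anti (by omega) hv)
  have hall : ∀ m : ℕ, v ∈ cplx (W (-(2 * (r : ℤ) + 1) - m)) := by
    intro m
    induction m with
    | zero => simpa using hW
    | succ m ih =>
      have := hstep (-(2 * (r : ℤ) + 1) - m) (by omega) ih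
      convert this using 3
      push_cast
      ring
  obtain ⟨k, hk⟩ := h.W_bot
  have h2 : W (-(2 * (r : ℤ) + 1) - (k.natAbs : ℤ)) = ⊥ ∨
      W (-(2 * (r : ℤ) + 1) - (k.natAbs : ℤ)) ≤ W k := by
    right
    apply h.W_mono
    omega
  have h2' : W (-(2 * (r : ℤ) + 1) - (k.natAbs : ℤ)) = ⊥ := by
    rcases h2 with h2 | h2
    · exact h2
    · rw [eq_bot_iff, ← hk]; exact h2
  have h3 := hall k.natAbs
  rw [h2'] at h3
  unfold cplx at h3
  have h4 : {v : Fin n → ℂ | ∃ w ∈ (⊥ : Submodule ℚ (Fin n → ℚ)), v = fun i => ((w i : ℚ) : ℂ)}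
      ⊆ {0} := by
    rintro x ⟨w, hw, rfl⟩
    rw [Submodule.mem_bot] at hw
    rw [hw, Set.mem_singleton_iff]
    ext i
    simp
  have h5 := Submodule.span_mono h4 h3
  simpa using h5

/-- the real subspace spanned by a rational subspace -/
def realSub (W : Submodule ℚ (Fin n → ℚ)) : Submodule ℝ (Fin n → ℝ) :=
  Submodule.span ℝ {v | ∃ w ∈ W, v = fun i => ((w i : ℚ) : ℝ)}

theorem rv_mem_cplx {W : Submodule ℚ (Fin n → ℚ)} {w : Fin n → ℝ} (hw : w ∈ realSub W) :
    rv w ∈ cplx W := by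
  unfold realSub at hw
  induction hw using Submodule.span_induction with
  | mem x hx =>
    obtain ⟨w, hw, rfl⟩ := hx
    apply Submodule.subset_span
    refine ⟨w, hw, ?_⟩
    ext i
    simp [rv]
  | zero => rw [rv_zero]; exact Submodule.zero_mem _
  | add x y _ _ hx hy => rw [rv_add]; exact Submodule.add_mem _ hx hy
  | smul a x _ hx => rw [rv_smul]; exact Submodule.smul_mem _ _ hx

theorem finrank_realSub (W : Submodule ℚ (Fin n → ℚ)) :
    Module.finrank ℚ W ≤ Module.finrank ℝ (realSub W) := by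
  classical
  set b := Module.finBasis ℚ W with hb
  set k := Module.finrank ℚ W with hk
  -- left inverse
  let φ : (Fin k → ℚ) →ₗ[ℚ] (Fin n → ℚ) := W.subtype ∘ₗ (b.equivFun.symm : (Fin k → ℚ) →ₗ[ℚ] W)
  have hφ : Function.Injective φ := W.injective_subtype.comp b.equivFun.symm.injective
  obtain ⟨g, hg⟩ := LinearMap.exists_leftInverse_of_injective φ (LinearMap.ker_eq_bot.2 hφ)
  have hgb : ∀ i j, g (fun l => (b i : Fin n → ℚ) l) j = if i = j then 1 else 0 := by
    intro i j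
    have h1 : φ (Pi.single i 1) = (b i : Fin n → ℚ) := by
      show ((b.equivFun.symm (Pi.single i 1) : W) : Fin n → ℚ) = _
      rw [Module.Basis.equivFun_symm_apply]
      simp [Pi.single_apply]
    have h2 := congrArg (fun T => T (Pi.single i 1)) hg
    simp only [LinearMap.comp_apply, h1, LinearMap.id_apply] at h2
    have h3 : g (fun l => (b i : Fin n → ℚ) l) = Pi.single i 1 := h2
    rw [h3, Pi.single_apply]
    simp [eq_comm]
  have hli : LinearIndependent ℝ fun i : Fin k => fun l => (((b i : Fin n → ℚ) l : ℚ) : ℝ) := by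
    rw [Fintype.linearIndependent_iff]
    intro x hx j
    have h1 : ∀ i j, ∑ l, (LinearMap.toMatrix' g j l : ℚ) * (b i : Fin n → ℚ) l
        = if i = j then 1 else 0 := by
      intro i j
      rw [← hgb i j]
      have := congrFun (LinearMap.toMatrix'_mulVec g (fun l => (b i : Fin n → ℚ) l)) j
      rw [← this]
      rfl
    have h2 : ∑ l, ((LinearMap.toMatrix' g j l : ℚ) : ℝ) *
        (∑ i, x i • fun l => (((b i : Fin n → ℚ) l : ℚ) : ℝ)) l = x j := by
      have h3 : ∀ l, ((LinearMap.toMatrix' g j l : ℚ) : ℝ) *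
          (∑ i, x i • fun l => (((b i : Fin n → ℚ) l : ℚ) : ℝ)) l
          = ∑ i, x i * (((LinearMap.toMatrix' g j l * (b i : Fin n → ℚ) l : ℚ)) : ℝ) := by
        intro l
        rw [Finset.sum_apply, Finset.mul_sum]
        refine Finset.sum_congr rfl fun i _ => ?_
        simp only [Pi.smul_apply, smul_eq_mul]
        push_cast
        ring
      rw [Finset.sum_congr rfl fun l _ => h3 l, Finset.sum_comm]
      have h4 : ∀ i, ∑ l, x i * (((LinearMap.toMatrix' g j l * (b i : Fin n → ℚ) l : ℚ)) : ℝ)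
          = x i * if i = j then 1 else 0 := by
        intro i
        rw [← Finset.mul_sum, ← Rat.cast_sum, h1 i j]
        split_ifs <;> simp
      rw [Finset.sum_congr rfl fun i _ => h4 i]
      simp
    rw [hx] at h2
    simpa using h2.symm
  have hmem : ∀ i : Fin k, (fun l => (((b i : Fin n → ℚ) l : ℚ) : ℝ)) ∈ realSub W := by
    intro i
    exact Submodule.subset_span ⟨(b i : Fin n → ℚ), (b i).2, rfl⟩
  have h5 := finrank_span_eq_card hli
  rw [Fintype.card_fin] at h5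
  rw [← h5]
  apply Submodule.finrank_mono
  rw [Submodule.span_le]
  rintro _ ⟨i, rfl⟩
  exact hmem i

/-! ### Frames -/

/-- the matrix of the differential system -/
noncomputable def Mx (f : ℂ → Fin n → Fin n → ℂ) (u : ℂ) (j k : Fin n) : ℂ :=
  -(mkInv (f u) (deriv (fun u => f u k) u)) j

section

variable {Ω : Set ℂ} {f : ℂ → Fin n → Fin n → ℂ}

theorem diff_mkInv (hΩ : IsOpen Ω) (hd : ∀ j, DifferentiableOn ℂ (fun u => f u j) Ω)
    (hi : ∀ u ∈ Ω, LinearIndependent ℂ (f u)) :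
    DifferentiableOn ℂ (fun u => mkInv (f u)) Ω := fun u hu =>
  (differentiableAt_mkInv (fun j => (hd j).differentiableAt (hΩ.mem_nhds hu))
    (hi u hu)).differentiableWithinAt

theorem analyticAt_g (hΩ : IsOpen Ω) (hd : ∀ j, DifferentiableOn ℂ (fun u => f u j) Ω)
    (hi : ∀ u ∈ Ω, LinearIndependent ℂ (f u)) (v : Fin n → ℂ) {u : ℂ} (hu : u ∈ Ω) :
    AnalyticAt ℂ (fun u => mkInv (f u) v) u :=
  DifferentiableOn.analyticAt (s := Ω) (fun x hx =>
    ((diff_mkInv hΩ hd hi).differentiableAt (hΩ.mem_nhds hx)).clm_apply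
      (differentiableAt_const v) |>.differentiableWithinAt) (hΩ.mem_nhds hu)

theorem diff_Mx (hΩ : IsOpen Ω) (hd : ∀ j, DifferentiableOn ℂ (fun u => f u j) Ω)
    (hi : ∀ u ∈ Ω, LinearIndependent ℂ (f u)) (j k : Fin n) :
    DifferentiableOn ℂ (fun u => Mx f u j k) Ω := by
  intro u hu
  have h1 : DifferentiableAt ℂ (fun u => mkInv (f u)) u :=
    (diff_mkInv hΩ hd hi).differentiableAt (hΩ.mem_nhds hu)
  have h2 : DifferentiableAt ℂ (fun u => deriv (fun u => f u k) u) u :=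
    (((hd k).analyticAt (hΩ.mem_nhds hu)).deriv).differentiableAt
  have h3 := h1.clm_apply h2
  have h4 := (differentiableAt_pi.1 h3) j
  exact h4.neg.differentiableWithinAt

theorem hasDerivAt_g (hΩ : IsOpen Ω) (hd : ∀ j, DifferentiableOn ℂ (fun u => f u j) Ω)
    (hi : ∀ u ∈ Ω, LinearIndependent ℂ (f u)) (v : Fin n → ℂ) {u : ℂ} (hu : u ∈ Ω) :
    HasDerivAt (fun u => mkInv (f u) v) (fun j => ∑ k, Mx f u j k * mkInv (f u) v k) u := by
  have hd' : ∀ j, DifferentiableAt ℂ (fun u => f u j) u :=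
    fun j => (hd j).differentiableAt (hΩ.mem_nhds hu)
  obtain ⟨g', hg'⟩ : ∃ g', HasDerivAt (fun u => mkInv (f u) v) g' u :=
    ⟨_, (analyticAt_g hΩ hd hi v hu).differentiableAt.hasDerivAt⟩
  have h1 := (hasDerivAt_mk hd').clm_apply hg'
  have h2 : HasDerivAt (fun u => mk (f u) (mkInv (f u) v)) 0 u := by
    refine (hasDerivAt_const u v).congr_of_eventuallyEq ?_
    filter_upwards [hΩ.mem_nhds hu] with x hx
    exact mk_mkInv (hi x hx) v
  have h3 := h1.unique h2
  have h4 : g' = - mkInv (f u) (mk (fun j => deriv (fun u => f u j) u) (mkInv (f u) v)) := by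
    have h5 : mk (f u) g' = - mk (fun j => deriv (fun u => f u j) u) (mkInv (f u) v) := by
      rw [eq_neg_iff_add_eq_zero, add_comm]
      exact h3
    have h6 := congrArg (mkInv (f u)) h5
    rw [mkInv_mk (hi u hu), map_neg] at h6
    exact h6
  have h7 : g' = fun j => ∑ k, Mx f u j k * mkInv (f u) v k := by
    rw [h4]
    funext j
    rw [mk_apply, Pi.neg_apply, map_sum, Finset.sum_apply, ← Finset.sum_neg_distrib]
    refine Finset.sum_congr rfl fun k _ => ?_
    rw [map_smul, Pi.smul_apply, smul_eq_mul]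
    unfold Mx
    ring
  rw [← h7]
  exact hg'

theorem Mx_zero (hi : ∀ u ∈ Ω, LinearIndependent ℂ (f u))
    (ht : ∀ u ∈ Ω, ∀ j, deriv (fun u => f u j) u ∈ fil lev (f u) (lev j - 1)) {u : ℂ} (hu : u ∈ Ω)
    {j k : Fin n} (hjk : lev j < lev k - 1) : Mx f u j k = 0 := by
  unfold Mx
  rw [(mem_fil_iff (hi u hu) _ _).1 (ht u hu k) j (by omega), neg_zero]

/-- the coordinates of low level of a flat section of `F^0` at `u` vanish to high order -/
theorem order_of_mem (hΩ : IsOpen Ω) (hd : ∀ j, DifferentiableOn ℂ (fun u => f u j) Ω)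
    (hi : ∀ u ∈ Ω, LinearIndependent ℂ (f u))
    (ht : ∀ u ∈ Ω, ∀ j, deriv (fun u => f u j) u ∈ fil lev (f u) (lev j - 1)) {v : Fin n → ℂ}
    {u : ℂ} (hu : u ∈ Ω) (hv : v ∈ fil lev (f u) 0) (i : ℕ) :
    ∀ j, lev j < -(i : ℤ) → ((i + 1 : ℕ) : ℕ∞) ≤ analyticOrderAt (fun u => mkInv (f u) v j) u := by
  have hga : ∀ j, AnalyticAt ℂ (fun u => mkInv (f u) v j) u := fun j =>
    (analyticAt_pi_iff.1 (analyticAt_g hΩ hd hi v hu)) j
  have h0 : ∀ j, lev j < 0 → mkInv (f u) v j = 0 := fun j hj =>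
    (mem_fil_iff (hi u hu) _ _).1 hv j (by omega)
  have hMa : ∀ j k, AnalyticAt ℂ (fun u => Mx f u j k) u := fun j k =>
    (diff_Mx hΩ hd hi j k).analyticAt (hΩ.mem_nhds hu)
  induction i with
  | zero =>
    intro j hj
    have h1 : analyticOrderAt (fun u => mkInv (f u) v j) u ≠ 0 :=
      analyticOrderAt_ne_zero.2 ⟨hga j, h0 j (by simpa using hj)⟩
    simpa using ENat.one_le_iff_ne_zero.2 h1
  | succ i ih =>
    intro j hj
    have h1 : ((i + 1 : ℕ) : ℕ∞) ≤ analyticOrderAt (deriv fun u => mkInv (f u) v j) u := by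
      have h2 : (deriv fun u => mkInv (f u) v j) =ᶠ[𝓝 u]
          fun u => ∑ k, Mx f u j k * mkInv (f u) v k := by
        filter_upwards [hΩ.mem_nhds hu] with x hx
        exact (hasDerivAt_pi.1 (hasDerivAt_g hΩ hd hi v hx) j).deriv
      rw [analyticOrderAt_congr h2]
      refine le_order_sum _ (fun k _ => (hMa j k).mul (hga k)) fun k _ => ?_
      by_cases hk : lev k < -(i : ℤ)
      · exact le_order_mul (hMa j k) (hga k) (ih k hk)
      · have h3 : (fun u => Mx f u j k * mkInv (f u) v k) =ᶠ[𝓝 u] fun _ => 0 := by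
          filter_upwards [hΩ.mem_nhds hu] with x hx
          rw [Mx_zero hi ht hx (by push_cast at hj; omega), zero_mul]
        change _ ≤ analyticOrderAt (fun u => Mx f u j k * mkInv (f u) v k) u
        rw [analyticOrderAt_congr h3, analyticOrderAt_eq_top.2 (Eventually.of_forall fun _ => rfl)]
        exact le_top
    have := (analyticOrderAt_deriv_ge_iff (hga j) (h0 j (by push_cast at hj; omega))).1 h1
    exact_mod_cast this

/-- the indices of the coordinates modulo `F^{1-r}` -/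
abbrev LL (lev : Fin n → ℤ) (r : ℕ) : Type := {j : Fin n // lev j ≤ -(r : ℤ)}

/-- the coordinates modulo `F^{-r}` -/
def dp (lev : Fin n → ℤ) (r : ℕ) (l : LL lev r) : Prop := lev l.1 < -(r : ℤ)

/-- the coordinates modulo `F^{1-r}` of a flat section -/
noncomputable def gL (lev : Fin n → ℤ) (r : ℕ) (f : ℂ → Fin n → Fin n → ℂ) (v : Fin n → ℂ) (u : ℂ) :
    LL lev r → ℂ := fun l => mkInv (f u) v l.1

theorem analyticAt_gL (hΩ : IsOpen Ω) (hd : ∀ j, DifferentiableOn ℂ (fun u => f u j) Ω)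
    (hi : ∀ u ∈ Ω, LinearIndependent ℂ (f u)) (r : ℕ) (v : Fin n → ℂ) {u : ℂ} (hu : u ∈ Ω) :
    AnalyticAt ℂ (gL lev r f v) u :=
  analyticAt_pi_iff.2 fun l => (analyticAt_pi_iff.1 (analyticAt_g hΩ hd hi v hu)) l.1

theorem order_gL (hΩ : IsOpen Ω) (hd : ∀ j, DifferentiableOn ℂ (fun u => f u j) Ω)
    (hi : ∀ u ∈ Ω, LinearIndependent ℂ (f u))
    (ht : ∀ u ∈ Ω, ∀ j, deriv (fun u => f u j) u ∈ fil lev (f u) (lev j - 1)) {v : Fin n → ℂ}
    {u : ℂ} (hu : u ∈ Ω) (hv : v ∈ fil lev (f u) 0) {r : ℕ} (hr : 1 ≤ r) :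
    (r : ℕ∞) ≤ analyticOrderAt (gL lev r f v) u := by
  refine le_order_of_coord (analyticAt_gL hΩ hd hi r v hu) fun l => ?_
  have h1 := order_of_mem hΩ hd hi ht hu hv (r - 1) l.1 (by have := l.2; omega)
  rw [Nat.sub_add_cancel hr] at h1
  exact h1

theorem ode_gL (hΩ : IsOpen Ω) (hd : ∀ j, DifferentiableOn ℂ (fun u => f u j) Ω)
    (hi : ∀ u ∈ Ω, LinearIndependent ℂ (f u))
    (ht : ∀ u ∈ Ω, ∀ j, deriv (fun u => f u j) u ∈ fil lev (f u) (lev j - 1)) {r : ℕ}
    (v : Fin n → ℂ) {u : ℂ} (hu : u ∈ Ω) (l : LL lev r) (hl : dp lev r l) :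
    deriv (fun x => gL lev r f v x l) u = ∑ l' : LL lev r, Mx f u l.1 l'.1 * gL lev r f v u l' := by
  have h1 : deriv (fun x => gL lev r f v x l) u = ∑ k, Mx f u l.1 k * mkInv (f u) v k :=
    (hasDerivAt_pi.1 (hasDerivAt_g hΩ hd hi v hu) l.1).deriv
  rw [h1]
  have h2 : ∑ l' : LL lev r, Mx f u l.1 l'.1 * gL lev r f v u l'
      = ∑ k ∈ Finset.univ.filter (fun k => lev k ≤ -(r : ℤ)), Mx f u l.1 k * mkInv (f u) v k := by
    rw [← Finset.sum_subtype_eq_sum_filter, Finset.subtype_univ]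
    rfl
  rw [h2]
  symm
  apply Finset.sum_subset (Finset.filter_subset _ _)
  intro k _ hk
  rw [Finset.mem_filter] at hk
  have h3 : ¬ lev k ≤ -(r : ℤ) := fun h => hk ⟨Finset.mem_univ _, h⟩
  rw [Mx_zero hi ht hu (by unfold dp at hl; omega), zero_mul]

end

end Pool.Agent.T2H44.RD
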