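import Pool.Agent.T2H44.RD.Frame
import Pool.Agent.Y92.RS.Global

/-!
# From local constancy of the space of Hodge classes to finiteness on a compact Riemann surface
-/

namespace Pool.Agent.T2H44.RD

open Filter Metric Set Matrix Pool.Agent.Y92.Gap
open scoped Topology

variable {n : ℕ} {lev : Fin n → ℤ}

/-! ### Change of the rational basis -/

theorem mem_classes {K : Subfield ℝ} {F : ℤ → Submodule ℂ (Fin n → ℂ)} {w : Fin n → ℝ} :
    w ∈ classes K F ↔ (∀ i, w i ∈ K) ∧ rv w ∈ F 0 := Iff.rfl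

theorem classes_congr (K : Subfield ℝ) {F F' : ℤ → Submodule ℂ (Fin n → ℂ)}
    (h : ∀ w : Fin n → ℝ, rv w ∈ F 0 ↔ rv w ∈ F' 0) : classes K F = classes K F' := by
  ext w
  rw [mem_classes, mem_classes, h w]

theorem rv_mulVec (γ : Matrix (Fin n) (Fin n) ℚ) (w : Fin n → ℝ) :
    rv ((γ.map (fun t : ℚ => (t : ℝ))) *ᵥ w) = (γ.map (fun t : ℚ => (t : ℂ))) *ᵥ (rv w) := by
  ext i
  simp [rv, Matrix.mulVec, dotProduct]

theorem mulVec_mem (K : Subfield ℝ) (γ : Matrix (Fin n) (Fin n) ℚ) {w : Fin n → ℝ}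
    (hw : ∀ i, w i ∈ K) (i : Fin n) : ((γ.map (fun t : ℚ => (t : ℝ))) *ᵥ w) i ∈ K := by
  simp only [Matrix.mulVec, dotProduct, Matrix.map_apply]
  exact K.sum_mem fun j _ => K.mul_mem (SubfieldClass.ratCast_mem K _) (hw j)

theorem mul_map_real {γ δ : Matrix (Fin n) (Fin n) ℚ} (h : γ * δ = 1) :
    (γ.map (fun t : ℚ => (t : ℝ))) * (δ.map (fun t : ℚ => (t : ℝ))) = 1 := by
  have h1 : (γ.map (Rat.castHom ℝ)) * (δ.map (Rat.castHom ℝ)) = (γ * δ).map (Rat.castHom ℝ) :=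
    Matrix.map_mul.symm
  rw [h, Matrix.map_one _ (map_zero _) (map_one _)] at h1
  exact h1

theorem mul_map_complex {γ δ : Matrix (Fin n) (Fin n) ℚ} (h : γ * δ = 1) :
    (γ.map (fun t : ℚ => (t : ℂ))) * (δ.map (fun t : ℚ => (t : ℂ))) = 1 := by
  have h1 : (γ.map (Rat.castHom ℂ)) * (δ.map (Rat.castHom ℂ)) = (γ * δ).map (Rat.castHom ℂ) :=
    Matrix.map_mul.symm
  rw [h, Matrix.map_one _ (map_zero _) (map_one _)] at h1
  exact h1

theorem finrank_classes_of_related (K : Subfield ℝ) {W : ℤ → Submodule ℚ (Fin n → ℚ)}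
    {F : ℤ → Submodule ℂ (Fin n → ℂ)} {W' : ℤ → Submodule ℚ (Fin n → ℚ)}
    {F' : ℤ → Submodule ℂ (Fin n → ℂ)} (h : Related W F W' F') :
    Module.finrank K (classes K F) = Module.finrank K (classes K F') := by
  obtain ⟨γ, hdet, -, hγ⟩ := h
  have hu : IsUnit γ.det := isUnit_iff_ne_zero.mpr hdet
  have h1 : γ * γ⁻¹ = 1 := Matrix.mul_nonsing_inv γ hu
  have h2 : γ⁻¹ * γ = 1 := Matrix.nonsing_inv_mul γ hu
  let f : classes K F →ₗ[K] classes K F' :=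
    { toFun := fun w => ⟨(γ.map (fun t : ℚ => (t : ℝ))) *ᵥ w.1, by
        refine ⟨mulVec_mem K γ w.2.1, ?_⟩
        rw [rv_mulVec, ← hγ 0]
        exact Submodule.mem_map_of_mem w.2.2⟩
      map_add' := fun v w => by
        ext i
        simp [Matrix.mulVec_add]
      map_smul' := fun t w => by
        apply Subtype.ext
        change (γ.map (fun t : ℚ => (t : ℝ))) *ᵥ (t • w.1) = t • ((γ.map (fun t : ℚ => (t : ℝ))) *ᵥ w.1)
        have : ∀ v : Fin n → ℝ, t • v = (t : ℝ) • v := fun v => rfl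
        rw [this, this, Matrix.mulVec_smul] }
  let g : classes K F' →ₗ[K] classes K F :=
    { toFun := fun w => ⟨(γ⁻¹.map (fun t : ℚ => (t : ℝ))) *ᵥ w.1, by
        refine ⟨mulVec_mem K γ⁻¹ w.2.1, ?_⟩
        rw [rv_mulVec]
        have hw := w.2.2
        rw [← hγ 0] at hw
        obtain ⟨v, hv, hvw⟩ := Submodule.mem_map.mp hw
        rw [← hvw, Matrix.mulVecLin_apply, Matrix.mulVec_mulVec, mul_map_complex h2,
          Matrix.one_mulVec]
        exact hv⟩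
      map_add' := fun v w => by
        ext i
        simp [Matrix.mulVec_add]
      map_smul' := fun t w => by
        apply Subtype.ext
        change (γ⁻¹.map (fun t : ℚ => (t : ℝ))) *ᵥ (t • w.1)
          = t • ((γ⁻¹.map (fun t : ℚ => (t : ℝ))) *ᵥ w.1)
        have : ∀ v : Fin n → ℝ, t • v = (t : ℝ) • v := fun v => rfl
        rw [this, this, Matrix.mulVec_smul] }
  refine LinearEquiv.finrank_eq (LinearEquiv.ofLinearMap f g ?_ ?_)
  · ext1 w
    apply Subtype.ext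
    change (γ.map (fun t : ℚ => (t : ℝ))) *ᵥ ((γ⁻¹.map (fun t : ℚ => (t : ℝ))) *ᵥ w.1) = w.1
    rw [Matrix.mulVec_mulVec, mul_map_real h1, Matrix.one_mulVec]
  · ext1 w
    apply Subtype.ext
    change (γ⁻¹.map (fun t : ℚ => (t : ℝ))) *ᵥ ((γ.map (fun t : ℚ => (t : ℝ))) *ᵥ w.1) = w.1
    rw [Matrix.mulVec_mulVec, mul_map_real h2, Matrix.one_mulVec]

/-! ### Points near a given point -/

section

variable {X : Type*} [TopologicalSpace X] [ChartedSpace ℂ X] {D : Set X}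

theorem point_eq (p : X) (u : ℂ) : point p u = Pool.Agent.Y92.RS.pt p u := rfl

theorem exists_near (V : Variation n lev X D) (p : X) {U : Set X} (hU : U ∈ 𝓝 p) :
    ∃ x ∈ U, x ≠ p ∧ x ∉ D := by
  by_cases hp : p ∈ D
  · have h1 : Tendsto (fun s : ℂ => point p (s ^ (V.cusp p).e)) (𝓝 0) (𝓝 p) := by
      refine (Pool.Agent.Y92.RS.tendsto_pt p).comp ?_
      have : Tendsto (fun s : ℂ => s ^ (V.cusp p).e) (𝓝 0) (𝓝 (0 ^ (V.cusp p).e)) :=
        (continuous_pow _).tendsto 0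
      rwa [zero_pow (V.cusp p).e_pos.ne'] at this
    have h2 : ∀ᶠ s in 𝓝[≠] (0 : ℂ), point p (s ^ (V.cusp p).e) ∈ U := nhdsWithin_le_nhds (h1 hU)
    have h3 : ∀ᶠ s in 𝓝[≠] (0 : ℂ), s ∈ ball (0 : ℂ) (V.cusp p).rad :=
      nhdsWithin_le_nhds (isOpen_ball.mem_nhds (mem_ball_self (V.cusp p).rad_pos))
    obtain ⟨s, ⟨hs1, hs2⟩, hs3⟩ := ((h2.and h3).and self_mem_nhdsWithin).exists
    have h4 := (V.cusp_dom p hp s hs2).2 hs3
    exact ⟨_, hs1, fun h => h4 (by rw [h]; exact hp), h4⟩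
  · have h1 : Tendsto (fun s : ℂ => point p s) (𝓝 0) (𝓝 p) := Pool.Agent.Y92.RS.tendsto_pt p
    have h2 : ∀ᶠ s in 𝓝[≠] (0 : ℂ), point p s ∈ U := nhdsWithin_le_nhds (h1 hU)
    have h3 : ∀ᶠ s in 𝓝[≠] (0 : ℂ), s ∈ ball (0 : ℂ) (V.disc p).rad :=
      nhdsWithin_le_nhds (isOpen_ball.mem_nhds (mem_ball_self (V.disc p).rad_pos))
    obtain ⟨s, ⟨hs1, hs2⟩, hs3⟩ := ((h2.and h3).and self_mem_nhdsWithin).exists
    have h4 := V.disc_dom p hp s hs2
    refine ⟨_, hs1, fun h => hs3 ?_, h4.2⟩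
    have h5 : chartAt ℂ p (point p s) = chartAt ℂ p p + s := (chartAt ℂ p).right_inv h4.1
    rw [h] at h5
    simpa using h5.symm

/-- at each point of `X ∖ D` there is a period -/
theorem exists_period (V : Variation n lev X D) {x : X} (hx : x ∉ D) :
    ∃ W F, HasPeriod D V.disc V.cusp x W F :=
  ⟨_, _, Or.inl ⟨x, hx, 0, mem_ball_self (V.disc x).rad_pos, Pool.Agent.Y92.RS.pt_zero x,
    rfl, rfl⟩⟩

/-- the rank of the space of Hodge classes is constant near each point -/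
theorem locally_const (V : Variation n lev X D) (K : Subfield ℝ)
    (h1 : ∀ p ∉ D, ∃ ε > 0, ε ≤ (V.disc p).rad ∧ ∃ B : Set (Fin n → ℝ), ∀ u : ℂ, u ≠ 0 → ‖u‖ < ε →
      ∀ w, rv w ∈ (V.disc p).F u 0 ↔ w ∈ B)
    (h2 : ∀ p ∈ D, ∃ (y₁ : ℝ) (B : Set (Fin n → ℝ)), ∀ z : ℂ, y₁ < z.im →
      qexp z ∈ ball (0 : ℂ) (V.cusp p).rad → ∀ w, rv w ∈ (V.cusp p).F z 0 ↔ w ∈ B) (p : X) :
    ∃ U ∈ 𝓝 p, ∃ d : ℕ, ∀ x ∈ U, x ≠ p → x ∉ D → ∀ W F, HasPeriod D V.disc V.cusp x W F →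
      Module.finrank K (classes K F) = d := by
  by_cases hp : p ∈ D
  · obtain ⟨y₁, B, hB⟩ := h2 p hp
    set ε : ℝ := min (V.cusp p).rad (Real.exp (-(2 * Real.pi * y₁))) with hε
    have hε0 : 0 < ε := lt_min (V.cusp p).rad_pos (Real.exp_pos _)
    obtain ⟨U, hU, hU2⟩ := Pool.Agent.Y92.RS.nhds_pt p (pow_pos hε0 (V.cusp p).e)
    have key : ∀ x ∈ U, x ≠ p → ∃ z : ℂ, y₁ < z.im ∧
        qexp z ∈ ball (0 : ℂ) (V.cusp p).rad ∧
        HasPeriod D V.disc V.cusp x (V.cusp p).W ((V.cusp p).F z) := by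
      intro x hx hxp
      obtain ⟨u, hu, hux, hu0⟩ := hU2 x hx
      obtain ⟨s, hs⟩ : ∃ s : ℂ, s ^ (V.cusp p).e = u :=
        IsAlgClosed.exists_pow_nat_eq u (V.cusp p).e_pos
      have hs0 : s ≠ 0 := by
        intro h
        apply hu0 hxp
        rw [← hs, h, zero_pow (V.cusp p).e_pos.ne']
      have hsn : ‖s‖ < ε := by
        rw [← hs, norm_pow] at hu
        exact lt_of_pow_lt_pow_left₀ _ hε0.le hu
      obtain ⟨z, hz⟩ := Pool.Agent.Y92.RS.exists_qq hs0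
      have hz' : qexp z = s := hz
      have hsr : s ∈ ball (0 : ℂ) (V.cusp p).rad := by
        rw [mem_ball_zero_iff]
        exact lt_of_lt_of_le hsn (min_le_left _ _)
      refine ⟨z, ?_, ?_, ?_⟩
      · apply Pool.Agent.Y92.RS.im_lt_of_norm_qq
        rw [hz]
        exact lt_of_lt_of_le hsn (min_le_right _ _)
      · rw [hz']; exact hsr
      · right
        refine ⟨p, hp, z, ?_, ?_, rfl, rfl⟩
        · rw [hz']; exact hsr
        · rw [hz', hs]; exact hux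
    by_cases hne : ∃ z₀ : ℂ, y₁ < z₀.im ∧ qexp z₀ ∈ ball (0 : ℂ) (V.cusp p).rad
    · obtain ⟨z₀, hz₀, hz₀r⟩ := hne
      refine ⟨U, hU, Module.finrank K (classes K ((V.cusp p).F z₀)), fun x hx hxp hxD W F hper => ?_⟩
      obtain ⟨z, hz, hzr, hperz⟩ := key x hx hxp
      rw [finrank_classes_of_related K (V.compat x W F _ _ hper hperz)]
      rw [classes_congr K fun w => (hB z hz hzr w).trans (hB z₀ hz₀ hz₀r w).symm]
    · refine ⟨U, hU, 0, fun x hx hxp hxD W F hper => ?_⟩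
      obtain ⟨z, hz, hzr, hperz⟩ := key x hx hxp
      exact absurd ⟨z, hz, hzr⟩ hne
  · obtain ⟨ε, hε, hεr, B, hB⟩ := h1 p hp
    obtain ⟨U, hU, hU2⟩ := Pool.Agent.Y92.RS.nhds_pt p hε
    have hu₀ : ((ε / 2 : ℝ) : ℂ) ≠ 0 := by
      rw [Complex.ofReal_ne_zero]
      positivity
    have hu₀n : ‖((ε / 2 : ℝ) : ℂ)‖ < ε := by
      rw [Complex.norm_real, Real.norm_eq_abs, abs_of_pos (by positivity)]
      linarith
    refine ⟨U, hU, Module.finrank K (classes K ((V.disc p).F ((ε / 2 : ℝ) : ℂ))),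
      fun x hx hxp hxD W F hper => ?_⟩
    obtain ⟨u, hu, hux, hu0⟩ := hU2 x hx
    have hur : u ∈ ball (0 : ℂ) (V.disc p).rad := by
      rw [mem_ball_zero_iff]
      exact lt_of_lt_of_le hu hεr
    have hperu : HasPeriod D V.disc V.cusp x (V.disc p).W ((V.disc p).F u) :=
      Or.inl ⟨p, hp, u, hur, hux, rfl, rfl⟩
    rw [finrank_classes_of_related K (V.compat x W F _ _ hper hperu)]
    rw [classes_congr K fun w => (hB u (hu0 hxp) hu w).trans (hB _ hu₀ hu₀n w).symm]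

end

/-- **Package G.** -/
theorem global {X : Type*} [TopologicalSpace X] [ChartedSpace ℂ X] [CompactSpace X]
    [ConnectedSpace X] [T2Space X] {D : Set X} (V : Variation n lev X D) (K : Subfield ℝ)
    (h1 : ∀ p ∉ D, ∃ ε > 0, ε ≤ (V.disc p).rad ∧ ∃ B : Set (Fin n → ℝ), ∀ u : ℂ, u ≠ 0 → ‖u‖ < ε →
      ∀ w, rv w ∈ (V.disc p).F u 0 ↔ w ∈ B)
    (h2 : ∀ p ∈ D, ∃ (y₁ : ℝ) (B : Set (Fin n → ℝ)), ∀ z : ℂ, y₁ < z.im →
      qexp z ∈ ball (0 : ℂ) (V.cusp p).rad → ∀ w, rv w ∈ (V.cusp p).F z 0 ↔ w ∈ B) :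
    ∃ d : ℕ, {x | x ∉ D ∧ ∃ W F, HasPeriod D V.disc V.cusp x W F ∧
      Module.finrank K (classes K F) ≠ d}.Finite := by
  have hloc := locally_const V K h1 h2
  obtain ⟨p₀⟩ : Nonempty X := inferInstance
  obtain ⟨U₀, hU₀, d, hd⟩ := hloc p₀
  refine ⟨d, ?_⟩
  -- the set of the points near which the rank is `d`
  set A : Set X := {p | ∃ U ∈ 𝓝 p, ∀ x ∈ U, x ≠ p → x ∉ D → ∀ W F,
    HasPeriod D V.disc V.cusp x W F → Module.finrank K (classes K F) = d} with hA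
  have hp₀ : p₀ ∈ A := ⟨U₀, hU₀, hd⟩
  have hAo : IsOpen A := by
    rw [isOpen_iff_mem_nhds]
    rintro p ⟨U, hU, hU2⟩
    have h3 : ∀ᶠ y in 𝓝 p, U ∈ 𝓝 y := eventually_mem_nhds_iff.mpr hU
    filter_upwards [h3] with y hy
    by_cases hyp : y = p
    · rw [hyp]; exact ⟨U, hU, hU2⟩
    · refine ⟨U ∩ {p}ᶜ, Filter.inter_mem hy (isOpen_compl_singleton.mem_nhds hyp),
        fun x hx _ hxD => hU2 x hx.1 hx.2 hxD⟩
  have hAc : IsOpen Aᶜ := by
    rw [isOpen_iff_mem_nhds]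
    intro p hp
    obtain ⟨U, hU, d', hd'⟩ := hloc p
    have hne : d' ≠ d := by
      rintro rfl
      exact hp ⟨U, hU, hd'⟩
    have h3 : ∀ᶠ y in 𝓝 p, U ∈ 𝓝 y := eventually_mem_nhds_iff.mpr hU
    filter_upwards [h3] with y hy
    rintro ⟨U', hU', hU'2⟩
    by_cases hyp : y = p
    · rw [hyp] at hU' hU'2
      exact hp ⟨U', hU', hU'2⟩
    · have h4 : U ∩ U' ∩ {p}ᶜ ∈ 𝓝 y :=
        Filter.inter_mem (Filter.inter_mem hy hU') (isOpen_compl_singleton.mem_nhds hyp)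
      obtain ⟨x, hx, hxy, hxD⟩ := exists_near V y h4
      obtain ⟨W, F, hper⟩ := exists_period V hxD
      apply hne
      rw [← hd' x hx.1.1 hx.2 hxD W F hper, ← hU'2 x hx.1.2 hxy hxD W F hper]
  have hAu : A = univ := by
    rcases isClopen_iff.mp ⟨isOpen_compl_iff.mp hAc, hAo⟩ with h | h
    · rw [h] at hp₀
      exact absurd hp₀ (Set.notMem_empty _)
    · exact h
  have h5 : ∀ p, ∃ U ∈ 𝓝 p, ∀ x ∈ U, x ≠ p → x ∉ D → ∀ W F,
      HasPeriod D V.disc V.cusp x W F → Module.finrank K (classes K F) = d := by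
    intro p
    have : p ∈ A := by rw [hAu]; trivial
    exact this
  choose U hU hU2 using h5
  obtain ⟨t, -, ht⟩ := (isCompact_univ (X := X)).elim_nhds_subcover U (fun x _ => hU x)
  refine t.finite_toSet.subset fun x hx => ?_
  obtain ⟨hxD, W, F, hper, hne⟩ := hx
  have h6 := ht (Set.mem_univ x)
  rw [Set.mem_iUnion₂] at h6
  obtain ⟨p, hp, hxp⟩ := h6
  by_cases hxe : x = p
  · rw [hxe]; exact hp
  · exact absurd (hU2 p x hxp hxe hxD W F hper) hne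

end Pool.Agent.T2H44.RD
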